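import Pool.Agent.N459.BK.FM

/-!
First moment and deletion, with sharp constants and with `h` level sets.
-/

set_option autoImplicit false
set_option linter.unusedSectionVars false

namespace Pool.Agent.J4H55.ZC

open Finset Pool.Agent.N459.BK.FM
open scoped Classical

section
variable {Pt Ω₁ Ω₂ Ci : Type} [Fintype Pt] [Fintype Ω₁] [Fintype Ω₂] [Fintype Ci]
variable (V : Ω₁ → Set Pt) (R : Ω₂ → Pt → Pt → Prop) (S : Ci → Set Pt) (bad : Ω₁ → Ω₂ → Prop)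

theorem sum_epsh {q h : ℕ} (hq : 0 < q)
    (h3 : ∀ x y, Nat.card {ω // R ω x y} * q = h * Fintype.card Ω₂)
    (w : Ω₁) : ∑ a, eps V R w a = (h : ℝ) * (Fintype.card Ω₂ : ℝ) / q * nn V w ^ 2 := by
  have hq' : (0 : ℝ) < q := by exact_mod_cast hq
  unfold eps
  rw [Finset.sum_comm, nn_sq, Finset.mul_sum]
  refine Finset.sum_congr rfl fun x _ => ?_
  rw [Finset.sum_comm, Finset.mul_sum]
  refine Finset.sum_congr rfl fun y _ => ?_
  rw [← Finset.mul_sum]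
  have h4 := congrArg (fun k : ℕ => (k : ℝ)) (h3 x y)
  simp only [Nat.cast_mul] at h4
  rw [cardR] at h4
  have h5 : ∑ a, (if R a x y then (1 : ℝ) else 0) = (h : ℝ) * (Fintype.card Ω₂ : ℝ) / q := by
    rw [eq_div_iff hq'.ne', ← h4]
  rw [h5]
  ring

end

/-- the first moment argument -/
def S_FMe : Prop := ∀ (s m C h : ℕ), 2 ≤ s → 1 ≤ h → ∀ ε : ℝ, 0 < ε → ε < 1 → ∃ q₀ : ℕ, ∀ q : ℕ, q₀ ≤ q →
  ∀ (Pt Ω₁ Ω₂ Ci : Type) [Fintype Pt] [Fintype Ω₁] [Fintype Ω₂] [Fintype Ci]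
  [Nonempty Ω₁] [Nonempty Ω₂] (V : Ω₁ → Set Pt) (R : Ω₂ → Pt → Pt → Prop) (S : Ci → Set Pt)
  (bad : Ω₁ → Ω₂ → Prop),
  Fintype.card Pt = q ^ (s + m) →
  (∀ x, Nat.card {ω // x ∈ V ω} * q ^ m = Fintype.card Ω₁) →
  (∀ x y, x ≠ y → Nat.card {ω // x ∈ V ω ∧ y ∈ V ω} * q ^ (2 * m) = Fintype.card Ω₁) →
  (∀ x y, Nat.card {ω // R ω x y} * q = h * Fintype.card Ω₂) →
  (∀ c, (S c).Nonempty) →
  (q ^ 2 * ∑ c, Nat.card {ω // S c ⊆ V ω} ≤ C * q ^ s * Fintype.card Ω₁) →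
  (q ^ 2 * Nat.card {ω : Ω₁ × Ω₂ // bad ω.1 ω.2} ≤
    C * Fintype.card Ω₁ * Fintype.card Ω₂) →
  ∃ ω₁ ω₂, ¬ bad ω₁ ω₂ ∧ ∃ V₀ ⊆ V ω₁, (∀ c, ¬ S c ⊆ V₀) ∧
    (V₀.ncard : ℝ) ≤ (1 + ε) * (q : ℝ) ^ s ∧
    (1 - ε) * h * (q : ℝ) ^ (2 * s - 1) ≤
      (Set.ncard {z : Pt × Pt | z.1 ∈ V₀ ∧ z.2 ∈ V₀ ∧ R ω₂ z.1 z.2} : ℝ)

theorem FMe : S_FMe := by
  intro s m C h hs hh ε hε hε1
  set α : ℝ := 1 + ε with hα
  have hα1 : 1 < α := by linarith
  set κ : ℝ := (α / ε) ^ 2 with hκ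
  have hκ0 : 0 < κ := by positivity
  obtain ⟨q₁, hq₁⟩ := exists_nat_ge ((κ + 4 * α ^ 2 * C) / ε)
  refine ⟨max 1 q₁, fun q hq Pt Ω₁ Ω₂ Ci _ _ _ _ _ _ V R S bad hP h1 h2 h3 hS h5 h6 => ?_⟩
  have hq0 : 0 < q := by
    have := le_trans (le_max_left _ _) hq
    omega
  have hq' : (0 : ℝ) < q := by exact_mod_cast hq0
  have hh' : (1 : ℝ) ≤ h := by exact_mod_cast hh
  set A1 : ℝ := (Fintype.card Ω₁ : ℝ) with hA1
  set A2 : ℝ := (Fintype.card Ω₂ : ℝ) with hA2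
  have hA10 : 0 < A1 := by rw [hA1]; exact_mod_cast Fintype.card_pos
  have hA20 : 0 < A2 := by rw [hA2]; exact_mod_cast Fintype.card_pos
  set Q : ℝ := (q : ℝ) ^ s with hQ
  have hQ0 : 0 < Q := by positivity
  have e1 := sum_nn (s := s) (m := m) V hq0 hP h1
  have e2 := sum_nn_sq (s := s) (m := m) V hq0 hP h1 h2
  rw [← hA1, ← hQ] at e1 e2
  have e3 : ∑ w, (nn V w - Q) ^ 2 = ∑ w, nn V w ^ 2 - Q ^ 2 * A1 := by
    have : ∀ w, (nn V w - Q) ^ 2 = nn V w ^ 2 - 2 * Q * nn V w + Q ^ 2 := fun w => by ring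
    rw [Finset.sum_congr rfl fun w _ => this w, Finset.sum_add_distrib, Finset.sum_sub_distrib,
      ← Finset.mul_sum, e1, Finset.sum_const, Finset.card_univ, nsmul_eq_mul]
    ring
  have e4 : 0 ≤ ∑ w, (nn V w - Q) ^ 2 := Finset.sum_nonneg fun w _ => sq_nonneg _
  set K : ℝ := α ^ 2 * Q ^ 2 with hK
  have hK0 : 0 < K := by positivity
  -- the weights
  set Phi : Ω₁ × Ω₂ → ℝ := fun z => (if nn V z.1 ≤ α * Q then eps V R z.1 z.2 else 0) -
    2 * α * Q * kap V S z.1 - K * (if bad z.1 z.2 then 1 else 0) with hPhi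
  have hsum1 : (h : ℝ) * A2 / q * (Q ^ 2 * A1 - κ * (Q * A1)) ≤
      ∑ z : Ω₁ × Ω₂, (if nn V z.1 ≤ α * Q then eps V R z.1 z.2 else 0) := by
    rw [Fintype.sum_prod_type]
    have g1 : ∀ w : Ω₁, (h : ℝ) * A2 / q * (nn V w ^ 2 - κ * (nn V w - Q) ^ 2) ≤
        ∑ a : Ω₂, (if nn V w ≤ α * Q then eps V R w a else 0) := by
      intro w
      by_cases hw : nn V w ≤ α * Q
      · simp only [if_pos hw]
        rw [sum_epsh V R hq0 h3 w]
        refine mul_le_mul_of_nonneg_left ?_ (by positivity)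
        nlinarith [mul_nonneg hκ0.le (sq_nonneg (nn V w - Q))]
      · simp only [if_neg hw, Finset.sum_const_zero]
        push Not at hw
        refine mul_nonpos_of_nonneg_of_nonpos (by positivity) ?_
        have hnn0 := nn_nonneg V w
        have h7 : nn V w ≤ α / ε * (nn V w - Q) := by
          rw [div_mul_eq_mul_div, le_div_iff₀ hε]
          nlinarith
        have h8 : nn V w ^ 2 ≤ (α / ε * (nn V w - Q)) ^ 2 := pow_le_pow_left₀ hnn0 h7 2
        rw [mul_pow] at h8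
        linarith
    refine le_trans ?_ (Finset.sum_le_sum fun w _ => g1 w)
    rw [← Finset.mul_sum, Finset.sum_sub_distrib, ← Finset.mul_sum, e3]
    refine mul_le_mul_of_nonneg_left ?_ (by positivity)
    have h9 : Q ^ 2 * A1 ≤ ∑ w, nn V w ^ 2 := by linarith
    have h10 : ∑ w, nn V w ^ 2 - Q ^ 2 * A1 ≤ Q * A1 := by nlinarith
    have h11 := mul_le_mul_of_nonneg_left h10 hκ0.le
    linarith
  have hsum2 : ∑ z : Ω₁ × Ω₂, kap V S z.1 ≤ A2 * (C * Q * A1 / q ^ 2) := by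
    rw [Fintype.sum_prod_type]
    simp only [Finset.sum_const, Finset.card_univ, nsmul_eq_mul]
    rw [← Finset.mul_sum]
    refine mul_le_mul_of_nonneg_left ?_ hA20.le
    rw [le_div_iff₀ (by positivity)]
    have h7 : ((q ^ 2 * ∑ c, Nat.card {ω // S c ⊆ V ω} : ℕ) : ℝ) ≤
        ((C * q ^ s * Fintype.card Ω₁ : ℕ) : ℝ) := Nat.cast_le.2 h5
    push_cast at h7
    have h8 : ∑ w, kap V S w = ∑ c, ((Nat.card {ω // S c ⊆ V ω} : ℕ) : ℝ) := by
      unfold kap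
      rw [Finset.sum_comm]
      exact Finset.sum_congr rfl fun c _ => (cardR _).symm
    rw [h8]
    calc _ = (q : ℝ) ^ 2 * ∑ c, ((Nat.card {ω // S c ⊆ V ω} : ℕ) : ℝ) := by ring
      _ ≤ _ := h7
  have hsum3 : ∑ z : Ω₁ × Ω₂, (if bad z.1 z.2 then (1 : ℝ) else 0) ≤ C * A1 * A2 / q ^ 2 := by
    rw [← cardR (fun z : Ω₁ × Ω₂ => bad z.1 z.2), le_div_iff₀ (by positivity)]
    have h7 : ((q ^ 2 * Nat.card {ω : Ω₁ × Ω₂ // bad ω.1 ω.2} : ℕ) : ℝ) ≤
      ((C * Fintype.card Ω₁ * Fintype.card Ω₂ : ℕ) : ℝ) := Nat.cast_le.2 h6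
    push_cast at h7
    linarith
  have hqC : κ + 4 * α ^ 2 * C ≤ ε * q := by
    have h7 : (q₁ : ℝ) ≤ q := by exact_mod_cast le_trans (le_max_right _ _) hq
    have h8 := hq₁.trans h7
    rw [div_le_iff₀ hε] at h8
    linarith
  have hC0 : (0 : ℝ) ≤ C := Nat.cast_nonneg _
  have hq1 : (1 : ℝ) ≤ q := by exact_mod_cast hq0
  have hQq : (q : ℝ) ≤ Q := by
    rw [hQ]
    calc (q : ℝ) = (q : ℝ) ^ 1 := (pow_one _).symm
      _ ≤ (q : ℝ) ^ s := pow_le_pow_right₀ hq1 (by omega)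
  have hsumPhi : ∑ _z : Ω₁ × Ω₂, (1 - ε) * h * (Q ^ 2 / q) ≤ ∑ z : Ω₁ × Ω₂, Phi z := by
    have h7 : ∑ z : Ω₁ × Ω₂, Phi z =
        ∑ z : Ω₁ × Ω₂, (if nn V z.1 ≤ α * Q then eps V R z.1 z.2 else 0) -
        2 * α * Q * ∑ z : Ω₁ × Ω₂, kap V S z.1 -
        K * ∑ z : Ω₁ × Ω₂, (if bad z.1 z.2 then (1 : ℝ) else 0) := by
      rw [hPhi, Finset.sum_sub_distrib, Finset.sum_sub_distrib, ← Finset.mul_sum, ← Finset.mul_sum]
    rw [h7, Finset.sum_const, Finset.card_univ, Fintype.card_prod, nsmul_eq_mul]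
    push_cast
    rw [← hA1, ← hA2]
    have h8 : 2 * α * Q * ∑ z : Ω₁ × Ω₂, kap V S z.1 ≤ 2 * α * Q * (A2 * (C * Q * A1 / q ^ 2)) :=
      mul_le_mul_of_nonneg_left hsum2 (by positivity)
    have h9 : K * ∑ z : Ω₁ × Ω₂, (if bad z.1 z.2 then (1 : ℝ) else 0) ≤
        K * (C * A1 * A2 / q ^ 2) := mul_le_mul_of_nonneg_left hsum3 (by positivity)
    have h10 : A1 * A2 * ((1 - ε) * h * (Q ^ 2 / q)) ≤
        (h : ℝ) * A2 / q * (Q ^ 2 * A1 - κ * (Q * A1)) -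
        2 * α * Q * (A2 * (C * Q * A1 / q ^ 2)) - K * (C * A1 * A2 / q ^ 2) := by
      have h11 : (h : ℝ) * A2 / q * (Q ^ 2 * A1 - κ * (Q * A1)) -
        2 * α * Q * (A2 * (C * Q * A1 / q ^ 2)) - K * (C * A1 * A2 / q ^ 2) -
        A1 * A2 * ((1 - ε) * h * (Q ^ 2 / q)) =
        A1 * A2 * Q / q ^ 2 * (ε * h * Q * q - κ * h * q - (2 * α + α ^ 2) * C * Q) := by
        rw [hK]
        field_simp
        ring
      have h12 : 0 ≤ ε * h * Q * q - κ * h * q - (2 * α + α ^ 2) * C * Q := by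
        have g1 : κ * h * q ≤ κ * h * Q := mul_le_mul_of_nonneg_left hQq (by positivity)
        have g2 : (2 * α + α ^ 2) ≤ 4 * α ^ 2 := by nlinarith
        have g3 : (2 * α + α ^ 2) * C * Q ≤ 4 * α ^ 2 * C * h * Q := by
          have g4 : (2 * α + α ^ 2) * C ≤ 4 * α ^ 2 * C := mul_le_mul_of_nonneg_right g2 hC0
          have g5 : 4 * α ^ 2 * C ≤ 4 * α ^ 2 * C * h := le_mul_of_one_le_right (by positivity) hh'
          exact mul_le_mul_of_nonneg_right (g4.trans g5) hQ0.le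
        have g6 : (κ + 4 * α ^ 2 * C) * (h * Q) ≤ ε * q * (h * Q) :=
          mul_le_mul_of_nonneg_right hqC (by positivity)
        nlinarith
      have h13 : 0 ≤ A1 * A2 * Q / q ^ 2 *
          (ε * h * Q * q - κ * h * q - (2 * α + α ^ 2) * C * Q) :=
        mul_nonneg (by positivity) h12
      linarith
    linarith
  obtain ⟨⟨w, a⟩, _, hwa⟩ : ∃ z ∈ (Finset.univ : Finset (Ω₁ × Ω₂)),
      (1 - ε) * h * (Q ^ 2 / q) ≤ Phi z :=
    Finset.exists_le_of_sum_le Finset.univ_nonempty hsumPhi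
  have hh0 : (0 : ℝ) < h := by linarith
  have hε2 : 0 < 1 - ε := by linarith
  have hpos : 0 < (1 - ε) * h * (Q ^ 2 / q) := by positivity
  have hkap := kap_nonneg V S w
  have hn : nn V w ≤ α * Q := by
    by_contra hcon
    rw [hPhi] at hwa
    simp only [if_neg hcon] at hwa
    have g1 : 0 ≤ 2 * α * Q * kap V S w := by positivity
    have g2 : 0 ≤ K * (if bad w a then (1 : ℝ) else 0) := by
      split_ifs <;> positivity
    linarith
  have hbad : ¬ bad w a := by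
    intro hb
    rw [hPhi] at hwa
    simp only [if_pos hn, if_pos hb] at hwa
    have g1 : 0 ≤ 2 * α * Q * kap V S w := by positivity
    have g2 := eps_le V R w a
    have g3 : nn V w ^ 2 ≤ (α * Q) ^ 2 := pow_le_pow_left₀ (nn_nonneg V w) hn 2
    rw [mul_pow, ← hK] at g3
    linarith
  have hwa' : (1 - ε) * h * (Q ^ 2 / q) ≤ eps V R w a - 2 * α * Q * kap V S w := by
    rw [hPhi] at hwa
    simp only [if_pos hn, if_neg hbad] at hwa
    linarith
  -- deletion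
  choose xc hxc using hS
  set Vf : Finset Pt := Finset.univ.filter (fun x => x ∈ V w) with hVf
  set D : Finset Pt := (Finset.univ.filter (fun c => S c ⊆ V w)).image xc with hD
  have hDk : ((#D : ℕ) : ℝ) ≤ kap V S w := by
    have g1 : #D ≤ #(Finset.univ.filter (fun c => S c ⊆ V w)) := Finset.card_image_le
    have g2 : kap V S w = ((#(Finset.univ.filter (fun c => S c ⊆ V w)) : ℕ) : ℝ) := by
      unfold kap
      rw [Finset.sum_boole]
    rw [g2]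
    exact_mod_cast g1
  have hVn : ((#Vf : ℕ) : ℝ) = nn V w := by
    unfold nn av
    rw [Finset.sum_boole]
  have heps : eps V R w a = ((#((Vf ×ˢ Vf).filter (fun z => R a z.1 z.2)) : ℕ) : ℝ) := by
    unfold eps
    rw [← Fintype.sum_prod_type' (f := fun x y => av V w x * av V w y * (if R a x y then (1 : ℝ) else 0))]
    have g1 : ∀ z : Pt × Pt, av V w z.1 * av V w z.2 * (if R a z.1 z.2 then (1 : ℝ) else 0) =
        if (z ∈ (Vf ×ˢ Vf).filter (fun z => R a z.1 z.2)) then (1 : ℝ) else 0 := by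
      intro z
      unfold av
      by_cases a1 : z.1 ∈ V w <;> by_cases a2 : z.2 ∈ V w <;> by_cases a3 : R a z.1 z.2 <;>
        simp [a1, a2, a3, hVf]
    rw [Finset.sum_congr rfl fun z _ => g1 z, Finset.sum_boole]
    congr 2
    ext z
    simp only [Finset.mem_filter, Finset.mem_univ, true_and]
  refine ⟨w, a, hbad, ((Vf \ D : Finset Pt) : Set Pt), ?_, ?_, ?_, ?_⟩
  · intro x hx
    rw [Finset.mem_coe, Finset.mem_sdiff, hVf, Finset.mem_filter] at hx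
    exact hx.1.2
  · intro c hc
    have g1 : S c ⊆ V w := by
      intro x hx
      have := hc hx
      rw [Finset.mem_coe, Finset.mem_sdiff, hVf, Finset.mem_filter] at this
      exact this.1.2
    have g2 := hc (hxc c)
    rw [Finset.mem_coe, Finset.mem_sdiff] at g2
    apply g2.2
    rw [hD, Finset.mem_image]
    exact ⟨c, Finset.mem_filter.2 ⟨Finset.mem_univ _, g1⟩, rfl⟩
  · rw [Set.ncard_coe_finset]
    have g1 : #(Vf \ D) ≤ #Vf := Finset.card_le_card Finset.sdiff_subset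
    have g2 : ((#(Vf \ D) : ℕ) : ℝ) ≤ ((#Vf : ℕ) : ℝ) := by exact_mod_cast g1
    rw [hVn] at g2
    exact g2.trans hn
  · have g0 : {z : Pt × Pt | z.1 ∈ ((Vf \ D : Finset Pt) : Set Pt) ∧
        z.2 ∈ ((Vf \ D : Finset Pt) : Set Pt) ∧ R a z.1 z.2} =
        ((((Vf \ D) ×ˢ (Vf \ D)).filter (fun z => R a z.1 z.2) : Finset (Pt × Pt)) :
          Set (Pt × Pt)) := by
      ext z
      simp [and_assoc]
    rw [g0, Set.ncard_coe_finset]
    set N0 := #(((Vf \ D) ×ˢ (Vf \ D)).filter (fun z => R a z.1 z.2)) with hN0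
    have g1 : (Vf ×ˢ Vf).filter (fun z => R a z.1 z.2) ⊆
        (((Vf \ D) ×ˢ (Vf \ D)).filter (fun z => R a z.1 z.2)) ∪ (D ×ˢ Vf ∪ Vf ×ˢ D) := by
      intro z hz
      rw [Finset.mem_filter, Finset.mem_product] at hz
      rw [Finset.mem_union, Finset.mem_union, Finset.mem_filter, Finset.mem_product,
        Finset.mem_product, Finset.mem_product, Finset.mem_sdiff, Finset.mem_sdiff]
      tauto
    have g2 : #((Vf ×ˢ Vf).filter (fun z => R a z.1 z.2)) ≤ N0 + (#D * #Vf + #Vf * #D) := by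
      refine (Finset.card_le_card g1).trans ((Finset.card_union_le _ _).trans ?_)
      refine Nat.add_le_add_left ((Finset.card_union_le _ _).trans ?_) _
      rw [Finset.card_product, Finset.card_product]
    have g3 : ((#((Vf ×ˢ Vf).filter (fun z => R a z.1 z.2)) : ℕ) : ℝ) ≤
        ((N0 + (#D * #Vf + #Vf * #D) : ℕ) : ℝ) := Nat.cast_le.2 g2
    rw [← heps] at g3
    push_cast at g3
    rw [hVn] at g3
    have g4 : (#D : ℝ) * nn V w ≤ kap V S w * (α * Q) :=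
      mul_le_mul hDk hn (nn_nonneg V w) hkap
    have g6 : (q : ℝ) ^ (2 * s - 1) = Q ^ 2 / q := by
      rw [hQ, eq_div_iff hq'.ne', ← pow_mul, ← pow_succ]
      congr 1
      omega
    rw [g6]
    nlinarith

end Pool.Agent.J4H55.ZC
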