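import Pool.Agent.J4H55.ZC.Sym3
import Pool.Agent.H312R2.RG.C3a

/-!
All numbers of vertices, and the numerical part.
-/

set_option autoImplicit false

open Filter Topology

namespace Pool.Agent.J4H55.ZC

open Pool.Agent.N684.BK

/-- the Turán number -/
noncomputable def ex (n s t : ℕ) : ℝ :=
  (SimpleGraph.extremalNumber n (completeBipartiteGraph (Fin s) (Fin t)) : ℝ)

theorem bern (ε : ℝ) (hε : 0 < ε) (m : ℕ) : 1 - m * ε ≤ ((1 + ε) ^ m)⁻¹ := by
  have h1 : 0 < (1 + ε) ^ m := by positivity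
  have h2 : (1 + ε) ^ m ≤ Real.exp (m * ε) := by
    rw [Real.exp_nat_mul]
    refine pow_le_pow_left₀ (by linarith) ?_ m
    linarith [Real.add_one_le_exp ε]
  have h3 := Real.add_one_le_exp (-(m * ε))
  rw [Real.exp_neg] at h3
  have h4 : (Real.exp (m * ε))⁻¹ ≤ ((1 + ε) ^ m)⁻¹ := inv_anti₀ h1 h2
  linarith

/-- from primes to all numbers -/
theorem all_n {s t h : ℕ} (hs : 2 ≤ s) (hh : 1 ≤ h)
    (H : ∀ ε : ℝ, 0 < ε → ε < 1 →
      ∃ p₀ : ℕ, ∀ p : ℕ, p₀ ≤ p → p.Prime → ∀ n : ℕ, (1 + ε) * (p : ℝ) ^ s ≤ n →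
      (1 - ε) * h * (p : ℝ) ^ (2 * s - 1) ≤ 2 * (SimpleGraph.extremalNumber n
        (completeBipartiteGraph (Fin s) (Fin t)) : ℝ) + (1 + ε) * (p : ℝ) ^ s)
    (δ : ℝ) (hδ : 0 < δ) :
    ∀ᶠ n : ℕ in atTop, (1 - δ) * h / 2 * (n : ℝ) ^ (2 - 1 / (s : ℝ)) ≤ ex n s t := by
  have hs0 : (0 : ℝ) < s := by exact_mod_cast (by omega : 0 < s)
  have hs2 : (2 : ℝ) ≤ s := by exact_mod_cast hs
  set ε : ℝ := min (δ / (2 * s + 3)) (1 / 2) with hεd
  have hε : 0 < ε := by positivity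
  have hε1 : ε < 1 := lt_of_le_of_lt (min_le_right _ _) (by norm_num)
  have hεδ : (2 * s + 3) * ε ≤ δ := by
    have h1 : ε ≤ δ / (2 * s + 3) := min_le_left _ _
    rw [le_div_iff₀ (by positivity)] at h1
    linarith
  obtain ⟨p₀, hp₀⟩ := H ε hε hε1
  have hprime := Pool.Agent.H312R2.RG.C3.exists_prime_Ioc ε hε
  -- the map `n ↦ y'`
  have hy : Tendsto (fun n : ℕ => ((n : ℝ) / (1 + ε)) ^ (1 / (s : ℝ)) / (1 + ε)) atTop atTop := by
    refine Tendsto.atTop_div_const (by linarith) ?_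
    refine (tendsto_rpow_atTop (by positivity)).comp ?_
    exact Tendsto.atTop_div_const (by linarith) tendsto_natCast_atTop_atTop
  have hsmall : ∀ᶠ n : ℕ in atTop, (n : ℝ) ≤ ε * (n : ℝ) ^ (2 - 1 / (s : ℝ)) := by
    have h1 : Tendsto (fun n : ℕ => ε * (n : ℝ) ^ (1 - 1 / (s : ℝ))) atTop atTop := by
      refine Tendsto.const_mul_atTop hε ?_
      refine (tendsto_rpow_atTop ?_).comp tendsto_natCast_atTop_atTop
      have : 1 / (s : ℝ) ≤ 1 / 2 := one_div_le_one_div_of_le (by norm_num) hs2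
      linarith
    filter_upwards [h1.eventually_ge_atTop 1, eventually_gt_atTop 0] with n hn hn0
    have hn0' : (0 : ℝ) < n := by exact_mod_cast hn0
    have h2 : (n : ℝ) ^ (2 - 1 / (s : ℝ)) = n * (n : ℝ) ^ (1 - 1 / (s : ℝ)) := by
      rw [show (2 : ℝ) - 1 / (s : ℝ) = 1 + (1 - 1 / (s : ℝ)) by ring, Real.rpow_add hn0',
        Real.rpow_one]
    rw [h2]
    nlinarith
  filter_upwards [hy.eventually hprime, hy.eventually_ge_atTop (p₀ : ℝ), hsmall,
    eventually_gt_atTop 0] with n hn1 hn2 hn3 hn0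
  have hn0' : (0 : ℝ) < n := by exact_mod_cast hn0
  set y : ℝ := ((n : ℝ) / (1 + ε)) ^ (1 / (s : ℝ)) with hyd
  have hy0 : 0 < y := by positivity
  obtain ⟨p, hp, hp1, hp2⟩ := hn1
  have hpy : (p : ℝ) ≤ y := by
    have : (1 + ε) * (y / (1 + ε)) = y := by field_simp
    rw [this] at hp2
    exact hp2
  have hys : y ^ s = (n : ℝ) / (1 + ε) := by
    rw [hyd, ← Real.rpow_natCast, ← Real.rpow_mul (by positivity), one_div_mul_cancel hs0.ne',
      Real.rpow_one]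
  have h1 : (1 + ε) * (p : ℝ) ^ s ≤ n := by
    have h2 : (p : ℝ) ^ s ≤ y ^ s := pow_le_pow_left₀ (Nat.cast_nonneg _) hpy s
    rw [hys, le_div_iff₀ (by linarith)] at h2
    linarith
  have hpp : p₀ ≤ p := by
    have : (p₀ : ℝ) ≤ p := hn2.trans hp1.le
    exact_mod_cast this
  have key := hp₀ p hpp hp n h1
  have h3 : (y / (1 + ε)) ^ (2 * s - 1) ≤ (p : ℝ) ^ (2 * s - 1) :=
    pow_le_pow_left₀ (by positivity) hp1.le _
  have h4 : (n : ℝ) ^ (2 - 1 / (s : ℝ)) * ((1 + ε) ^ (2 * s + 1))⁻¹ ≤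
      (y / (1 + ε)) ^ (2 * s - 1) := by
    rw [div_pow]
    have h5 : y ^ (2 * s - 1) = ((n : ℝ) / (1 + ε)) ^ (2 - 1 / (s : ℝ)) := by
      rw [hyd, ← Real.rpow_natCast, ← Real.rpow_mul (by positivity)]
      congr 1
      rw [Nat.cast_sub (by omega)]
      push_cast
      field_simp
    rw [h5, Real.div_rpow hn0'.le (by linarith), div_div, div_eq_mul_inv]
    refine mul_le_mul_of_nonneg_left ?_ (by positivity)
    refine inv_anti₀ (by positivity) ?_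
    have h6 : (1 + ε) ^ (2 - 1 / (s : ℝ)) ≤ (1 + ε) ^ (2 : ℝ) :=
      Real.rpow_le_rpow_of_exponent_le (by linarith) (by
        have : 0 ≤ 1 / (s : ℝ) := by positivity
        linarith)
    rw [Real.rpow_two] at h6
    calc (1 + ε) ^ (2 - 1 / (s : ℝ)) * (1 + ε) ^ (2 * s - 1) ≤
          (1 + ε) ^ 2 * (1 + ε) ^ (2 * s - 1) := mul_le_mul_of_nonneg_right h6 (by positivity)
      _ = (1 + ε) ^ (2 * s + 1) := by
        rw [← pow_add]
        congr 1
        omega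
  have h7 := bern ε hε (2 * s + 1)
  have hN : 0 < (n : ℝ) ^ (2 - 1 / (s : ℝ)) := by positivity
  set N : ℝ := (n : ℝ) ^ (2 - 1 / (s : ℝ)) with hNd
  have hh' : (1 : ℝ) ≤ h := by exact_mod_cast hh
  have h8 : N * (1 - (2 * s + 1 : ℝ) * ε) ≤ (p : ℝ) ^ (2 * s - 1) := by
    refine le_trans ?_ (h4.trans h3)
    refine mul_le_mul_of_nonneg_left ?_ hN.le
    push_cast at h7
    exact h7
  have h9 : (1 - ε) * h * (N * (1 - (2 * s + 1 : ℝ) * ε)) ≤ 2 * ex n s t + n := by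
    refine le_trans ?_ (key.trans (by unfold ex; linarith))
    exact mul_le_mul_of_nonneg_left h8 (mul_nonneg (by linarith) (by linarith))
  have h10 : (1 - δ) * h * N ≤ (1 - ε) * h * (N * (1 - (2 * s + 1 : ℝ) * ε)) - ε * N := by
    have h11 : (1 - ε) * h * (N * (1 - (2 * s + 1 : ℝ) * ε)) - ε * N - (1 - δ) * h * N =
        N * (h * (δ - (2 * s + 2) * ε + (2 * s + 1) * ε ^ 2) - ε) := by ring
    have h12 : ε ≤ δ - (2 * s + 2) * ε + (2 * s + 1) * ε ^ 2 := by nlinarith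
    have h13 : ε ≤ h * (δ - (2 * s + 2) * ε + (2 * s + 1) * ε ^ 2) := by nlinarith
    have h14 : 0 ≤ N * (h * (δ - (2 * s + 2) * ε + (2 * s + 1) * ε ^ 2) - ε) :=
      mul_nonneg hN.le (by linarith)
    linarith
  linarith

end Pool.Agent.J4H55.ZC
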