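import Pool.Agent.N684.BK.Alg4

/-!
The bad event for the graphs defined by level sets of random polynomials.
-/

set_option autoImplicit false

open MvPolynomial

namespace Pool.Agent.J4H55.ZC

open Pool.Agent.N684.BK

theorem bil_sub {F : Type} [Field F] {N n : ℕ} (b : Fin n → MvPolynomial (Fin N) F)
    (a a' : Fin n → Fin n → F) (x y : Fin N → F) :
    bil b (a - a') x y = bil b a x y - bil b a' x y :=
  map_sub (bilL b x y) a a'

theorem bil_add {F : Type} [Field F] {N n : ℕ} (b : Fin n → MvPolynomial (Fin N) F)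
    (a a' : Fin n → Fin n → F) (x y : Fin N → F) :
    bil b (a + a') x y = bil b a x y + bil b a' x y :=
  map_add (bilL b x y) a a'

/-- prescribed values instead of zero -/
theorem badxc (hCOM : S_COM) (s e k : ℕ) (hs : 1 ≤ s)
    (hk : 2 * (s ^ 2 + 2 + k + k * s) ≤ k * (k + 3) * (k + 2)) :
    ∃ C : ℕ, ∀ (F : Type) [Field F] [Fintype F]
    (W H : Submodule F (MvPolynomial (Fin (s + e + k)) F)),
    W = PW F (wD s e k (s ^ 2 + s + 2)) (2 * (s ^ 2 + s + 2)) →
    H = PW F (wD s e k (s ^ 2 + s + 2)) ((s ^ 2 + s + 2) ^ 2) →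
    ∀ (n : ℕ) (b : Module.Basis (Fin n) F W) (A : Fin s → Fin (s + e + k) → F), Ind W A →
    ∀ c : Fin s → F,
    Fintype.card F ^ (s ^ 2 + 2 + s * (e + k)) * Nat.card
      {z : ((Fin e → W) × (Fin k → H)) × (Fin n → Fin n → F) // Set.range A ⊆ VV z.1 ∧
        2 ^ (s + e) * (s ^ 2 + s + 2) ^ (2 * k) < Set.ncard {y : Fin (s + e + k) → F |
          y ∈ VV z.1 ∧
          ∀ i, bil (fun l => (b l : MvPolynomial (Fin (s + e + k)) F)) z.2 (A i) y = c i}} ≤
      C * (Nat.card ((Fin e → W) × (Fin k → H)) * Nat.card (Fin n → Fin n → F)) := by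
  obtain ⟨C, hC⟩ := badx hCOM s e k hs hk
  refine ⟨C, ?_⟩
  intro F _ _ W H hW hH n b A hA c
  have key := hC F W H hW hH n b A hA
  have h1W : (1 : MvPolynomial (Fin (s + e + k)) F) ∈ W := by
    rw [hW]
    exact one_mem_PW _ _
  obtain ⟨a₀, ha₀⟩ := gm_surj b hA (fun i => c i • ⟨1, h1W⟩)
  have h0 : ∀ i y, bil (fun l => (b l : MvPolynomial (Fin (s + e + k)) F)) a₀ (A i) y = c i := by
    intro i y
    rw [← eval_gm b A a₀ i y, ha₀]
    show eval y ((c i • (⟨1, h1W⟩ : W) : W) : MvPolynomial (Fin (s + e + k)) F) = c i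
    rw [Submodule.coe_smul, smul_eval, map_one, mul_one]
  refine le_trans (le_of_eq ?_) key
  congr 1
  refine Nat.card_congr
    { toFun := fun z => ⟨(z.1.1, z.1.2 - a₀), z.2.1, ?_⟩
      invFun := fun z => ⟨(z.1.1, z.1.2 + a₀), z.2.1, ?_⟩
      left_inv := fun z => Subtype.ext (Prod.ext rfl (sub_add_cancel _ _))
      right_inv := fun z => Subtype.ext (Prod.ext rfl (add_sub_cancel_right _ _)) }
  · have h3 := z.2.2
    simp only [bil_sub, h0, sub_eq_zero]
    exact h3
  · have h3 := z.2.2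
    simp only [bil_add, h0, add_eq_right]
    exact h3

/-- the bad event for level sets -/
def BadL {F : Type} [Field F] {N e k s n : ℕ} (T : ℕ) (L : Finset F)
    {W H : Submodule F (MvPolynomial (Fin N) F)} (b : Module.Basis (Fin n) F W)
    (z : (Fin e → W) × (Fin k → H)) (a : Fin n → Fin n → F) : Prop :=
  ∃ A : Fin s → Fin N → F, Ind W A ∧ Set.range A ⊆ VV z ∧
    (L.card ^ s * T < Set.ncard {y : Fin N → F | y ∈ VV z ∧
      ∀ i, bil (fun l => (b l : MvPolynomial (Fin N) F)) a (A i) y ∈ L} ∨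
    L.card ^ s * T < Set.ncard {y : Fin N → F | y ∈ VV z ∧
      ∀ i, bil (fun l => (b l : MvPolynomial (Fin N) F)) a y (A i) ∈ L})

/-- one of the level sets is large -/
theorem exists_level {X F : Type} [Finite X] [DecidableEq F] (L : Finset F) {s : ℕ} (T : ℕ)
    (P : Set X) (g : Fin s → X → F)
    (h : L.card ^ s * T < Set.ncard {y | y ∈ P ∧ ∀ i, g i y ∈ L}) :
    ∃ c ∈ Fintype.piFinset (fun _ : Fin s => L), T < Set.ncard {y | y ∈ P ∧ ∀ i, g i y = c i} := by
  classical
  by_contra hcon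
  push Not at hcon
  have h1 : {y | y ∈ P ∧ ∀ i, g i y ∈ L} ⊆
      ⋃ c ∈ Fintype.piFinset (fun _ : Fin s => L), {y | y ∈ P ∧ ∀ i, g i y = c i} := by
    rintro y ⟨hy, hg⟩
    rw [Set.mem_iUnion₂]
    exact ⟨fun i => g i y, Fintype.mem_piFinset.2 hg, hy, fun i => rfl⟩
  have h2 := (Set.ncard_le_ncard h1 (Set.toFinite _)).trans (Finset.set_ncard_biUnion_le _ _)
  have h3 := h2.trans (Finset.sum_le_sum hcon)
  rw [Finset.sum_const, Fintype.card_piFinset_const, smul_eq_mul] at h3
  omega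

theorem bad_cardL (hCOM : S_COM) (s e k : ℕ) (hs : 1 ≤ s)
    (hk : 2 * (s ^ 2 + 2 + k + k * s) ≤ k * (k + 3) * (k + 2)) (h : ℕ) :
    ∃ C : ℕ, ∀ (F : Type) [Field F] [Fintype F]
    (W H : Submodule F (MvPolynomial (Fin (s + e + k)) F)),
    W = PW F (wD s e k (s ^ 2 + s + 2)) (2 * (s ^ 2 + s + 2)) →
    H = PW F (wD s e k (s ^ 2 + s + 2)) ((s ^ 2 + s + 2) ^ 2) →
    ∀ (n : ℕ) (b : Module.Basis (Fin n) F W) (L : Finset F), L.card = h →
    Fintype.card F ^ 2 * Nat.card
      {z : ((Fin e → W) × (Fin k → H)) × (Fin n → Fin n → F) //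
        BadL (s := s) (2 ^ (s + e) * (s ^ 2 + s + 2) ^ (2 * k)) L b z.1 z.2} ≤
      C * (Nat.card ((Fin e → W) × (Fin k → H)) * Nat.card (Fin n → Fin n → F)) := by
  classical
  obtain ⟨C, hC⟩ := badxc hCOM s e k hs hk
  refine ⟨2 * h ^ s * C, ?_⟩
  intro F _ _ W H hW hH n b L hL
  have hwt : ∀ i, 1 ≤ wD s e k (s ^ 2 + s + 2) i := by
    intro i
    unfold wD
    split_ifs
    · omega
    · exact le_rfl
  have hWf : Module.Finite F W := by rw [hW]; exact PW_finite _ hwt _
  have hHf : Module.Finite F H := by rw [hH]; exact PW_finite _ hwt _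
  have fW := finite_sub W
  have fH := finite_sub H
  have key := hC F W H hW hH n b
  set T := 2 ^ (s + e) * (s ^ 2 + s + 2) ^ (2 * k) with hT
  let Ω := ((Fin e → W) × (Fin k → H)) × (Fin n → Fin n → F)
  let P1 : ((Fin s → Fin (s + e + k) → F) × (Fin s → F)) → Ω → Prop := fun A z =>
    Set.range A.1 ⊆ VV z.1 ∧
        T < Set.ncard {y : Fin (s + e + k) → F | y ∈ VV z.1 ∧
          ∀ i, bil (fun l => (b l : MvPolynomial (Fin (s + e + k)) F)) z.2 (A.1 i) y = A.2 i}
  let P2 : ((Fin s → Fin (s + e + k) → F) × (Fin s → F)) → Ω → Prop := fun A z =>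
    Set.range A.1 ⊆ VV z.1 ∧
        T < Set.ncard {y : Fin (s + e + k) → F | y ∈ VV z.1 ∧
          ∀ i, bil (fun l => (b l : MvPolynomial (Fin (s + e + k)) F)) z.2 y (A.1 i) = A.2 i}
  have h1 : ∀ A, Ind W A.1 → Fintype.card F ^ (s ^ 2 + 2 + s * (e + k)) *
      Nat.card {z : Ω // P1 A z} ≤
      C * (Nat.card ((Fin e → W) × (Fin k → H)) * Nat.card (Fin n → Fin n → F)) :=
    fun A hA => key A.1 hA A.2
  have h2 : ∀ A, Ind W A.1 → Fintype.card F ^ (s ^ 2 + 2 + s * (e + k)) *
      Nat.card {z : Ω // P2 A z} ≤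
      C * (Nat.card ((Fin e → W) × (Fin k → H)) * Nat.card (Fin n → Fin n → F)) := by
    intro A hA
    refine le_trans (le_of_eq ?_) (key A.1 hA A.2)
    congr 1
    refine Nat.card_congr
      { toFun := fun z => ⟨(z.1.1, fun l m => z.1.2 m l), z.2.1, ?_⟩
        invFun := fun z => ⟨(z.1.1, fun l m => z.1.2 m l), z.2.1, ?_⟩
        left_inv := fun z => rfl
        right_inv := fun z => rfl }
    · have h3 := z.2.2
      simp only [bil_swap]
      exact h3
    · have h3 := z.2.2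
      show T < Set.ncard {y : Fin (s + e + k) → F | y ∈ VV z.1.1 ∧
          ∀ i, bil (fun l => (b l : MvPolynomial (Fin (s + e + k)) F))
            (fun l m => z.1.2 m l) y (A.1 i) = A.2 i}
      simp only [bil_swap]
      exact h3
  set I : Finset ((Fin s → Fin (s + e + k) → F) × (Fin s → F)) :=
    Finset.univ.filter (fun A => Ind W A.1) ∩
      (Finset.univ ×ˢ Fintype.piFinset (fun _ : Fin s => L)) with hI
  have h5 : Nat.card {z : Ω // BadL (s := s) T L b z.1 z.2} ≤
      ∑ A ∈ I, (Nat.card {z : Ω // P1 A z} + Nat.card {z : Ω // P2 A z}) := by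
    have hsub : {z : Ω | BadL (s := s) T L b z.1 z.2} ⊆
        ⋃ A ∈ I, ({z : Ω | P1 A z} ∪ {z : Ω | P2 A z}) := by
      rintro z ⟨A, hA, h3, h4⟩
      rw [Set.mem_iUnion₂]
      rcases h4 with h4 | h4
      · obtain ⟨c, hc, hc'⟩ := exists_level L T (VV z.1)
          (fun i y => bil (fun l => (b l : MvPolynomial (Fin (s + e + k)) F)) z.2 (A i) y) h4
        refine ⟨(A, c), ?_, Or.inl ⟨h3, hc'⟩⟩
        rw [hI, Finset.mem_inter, Finset.mem_filter, Finset.mem_product]
        exact ⟨⟨Finset.mem_univ _, hA⟩, Finset.mem_univ _, hc⟩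
      · obtain ⟨c, hc, hc'⟩ := exists_level L T (VV z.1)
          (fun i y => bil (fun l => (b l : MvPolynomial (Fin (s + e + k)) F)) z.2 y (A i)) h4
        refine ⟨(A, c), ?_, Or.inr ⟨h3, hc'⟩⟩
        rw [hI, Finset.mem_inter, Finset.mem_filter, Finset.mem_product]
        exact ⟨⟨Finset.mem_univ _, hA⟩, Finset.mem_univ _, hc⟩
    have h6 := Set.ncard_le_ncard hsub (Set.toFinite _)
    have h7 : Nat.card {z : Ω // BadL (s := s) T L b z.1 z.2} =
        Set.ncard {z : Ω | BadL (s := s) T L b z.1 z.2} := rfl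
    rw [h7]
    refine h6.trans ?_
    refine (Finset.set_ncard_biUnion_le _ _).trans ?_
    exact Finset.sum_le_sum fun A _ => Set.ncard_union_le _ _
  have hcardA : I.card ≤ Fintype.card F ^ (s ^ 2 + s * (e + k)) * h ^ s := by
    refine (Finset.card_le_card Finset.inter_subset_right).trans ?_
    rw [Finset.card_product, Finset.card_univ, Fintype.card_piFinset_const, hL,
      Fintype.card_fun, Fintype.card_fun, Fintype.card_fin, Fintype.card_fin, ← pow_mul]
    refine le_of_eq ?_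
    congr 2
    ring
  have hq : 0 < Fintype.card F := Fintype.card_pos
  have hpos : 0 < Fintype.card F ^ (s ^ 2 + s * (e + k)) := Nat.pow_pos hq
  refine Nat.le_of_mul_le_mul_left ?_ hpos
  calc Fintype.card F ^ (s ^ 2 + s * (e + k)) * (Fintype.card F ^ 2 *
        Nat.card {z : Ω // BadL (s := s) T L b z.1 z.2})
      = Fintype.card F ^ (s ^ 2 + 2 + s * (e + k)) *
        Nat.card {z : Ω // BadL (s := s) T L b z.1 z.2} := by
        rw [← mul_assoc, ← pow_add]
        congr 2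
        ring
    _ ≤ Fintype.card F ^ (s ^ 2 + 2 + s * (e + k)) *
        ∑ A ∈ I, (Nat.card {z : Ω // P1 A z} + Nat.card {z : Ω // P2 A z}) :=
        Nat.mul_le_mul_left _ h5
    _ = ∑ A ∈ I, Fintype.card F ^ (s ^ 2 + 2 + s * (e + k)) *
        (Nat.card {z : Ω // P1 A z} + Nat.card {z : Ω // P2 A z}) :=
        Finset.mul_sum _ _ _
    _ ≤ ∑ A ∈ I, 2 * C *
        (Nat.card ((Fin e → W) × (Fin k → H)) * Nat.card (Fin n → Fin n → F)) := by
        refine Finset.sum_le_sum fun A hA => ?_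
        rw [hI, Finset.mem_inter, Finset.mem_filter] at hA
        have h8 := h1 A hA.1.2
        have h9 := h2 A hA.1.2
        rw [mul_add]
        calc _ ≤ C * (Nat.card ((Fin e → W) × (Fin k → H)) * Nat.card (Fin n → Fin n → F)) +
              C * (Nat.card ((Fin e → W) × (Fin k → H)) * Nat.card (Fin n → Fin n → F)) :=
              Nat.add_le_add h8 h9
          _ = _ := by ring
    _ = I.card * (2 * C *
        (Nat.card ((Fin e → W) × (Fin k → H)) * Nat.card (Fin n → Fin n → F))) := by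
        rw [Finset.sum_const, smul_eq_mul]
    _ ≤ (Fintype.card F ^ (s ^ 2 + s * (e + k)) * h ^ s) * (2 * C *
        (Nat.card ((Fin e → W) × (Fin k → H)) * Nat.card (Fin n → Fin n → F))) :=
        Nat.mul_le_mul_right _ hcardA
    _ = _ := by ring

end Pool.Agent.J4H55.ZC
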