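import Pool.Agent.J4H55.ZC.Fin
import Pool.Agent.N684.BK.Low
import Pool.Agent.N769.BK.DIM
import Pool.Agent.N769.BK.MULSUM
import Pool.Agent.N861.BK.BEZ
import Pool.Agent.N415.BK.TOP
import Pool.Agent.N738.BK.RAT
import Pool.Agent.N136.BK.RCI
import Pool.Agent.N591.BK.FE
import Pool.Agent.N678.BK.COM
import Pool.Agent.N392.BK.CIRC
import Pool.Agent.N615.BK.CLEAN

/-!
The numerical part, and the assembly.
-/

set_option autoImplicit false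

open Filter Topology

namespace Pool.Agent.J4H55.ZC

open Pool.Agent.N684.BK

/-- the threshold `2 ^ (9 s / 4) * s ^ (12 s ^ (2 / 3) + 38)` -/
noncomputable def thr (s : ℕ) : ℝ :=
  (2 : ℝ) ^ (9 * (s : ℝ) / 4) * (s : ℝ) ^ (12 * (s : ℝ) ^ (2 / 3 : ℝ) + 38)

theorem algY : S_ALGY := by
  have hDIM := Pool.Agent.N769.BK.DIM.DIM
  have hMONO := Pool.Agent.N769.BK.DIM.MONO
  have hBEZ := Pool.Agent.N861.BK.BEZ.BEZ Pool.Agent.N769.BK.MULSUM.MUL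
    Pool.Agent.N769.BK.MULSUM.SUM
  have hRCI := Pool.Agent.N136.BK.RCI.main hDIM hMONO hBEZ LOW Pool.Agent.N738.BK.RAT.PT
  have hFE := Pool.Agent.N591.BK.FE.FE hDIM hMONO hBEZ LOW
  have hCOM := Pool.Agent.N678.BK.COM.main hMONO Pool.Agent.N415.BK.TOP.TOP
    Pool.Agent.N738.BK.RAT.RAT TR POS QU hRCI hFE Pool.Agent.N415.BK.TOP.FIB
  have hCIRC := Pool.Agent.N392.BK.CIRC.CIRC Pool.Agent.N392.BK.ROWS.ROWS
  exact ALGY hCOM hCIRC Pool.Agent.N615.BK.CLEAN.CLEAN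

theorem num (s : ℕ) (hs : 2 ≤ s) : ∃ e k : ℕ, 5 * s ≤ 4 * e ∧ 6 ≤ k ∧
    2 * (s ^ 2 + 2 + k + k * s) ≤ k * (k + 3) * (k + 2) ∧
    ((2 ^ (s + e) * (s ^ 2 + s + 2) ^ (2 * k) : ℕ) : ℝ) < thr s := by
  have hsR : (2 : ℝ) ≤ s := by exact_mod_cast hs
  set r : ℝ := (s : ℝ) ^ (2 / 3 : ℝ) with hr
  have hr0 : 0 ≤ r := by positivity
  have hr3 : r ^ 3 = (s : ℝ) ^ 2 := by
    rw [hr, ← Real.rpow_natCast, ← Real.rpow_mul (by positivity), ← Real.rpow_natCast]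
    norm_num
  set k : ℕ := max 6 ⌈2 * r⌉₊ with hk
  have hk6 : 6 ≤ k := le_max_left _ _
  have hkr : 2 * r ≤ k := (Nat.le_ceil _).trans (by exact_mod_cast le_max_right _ _)
  have hk3 : 8 * s ^ 2 ≤ k ^ 3 := by
    have h1 : (2 * r) ^ 3 ≤ (k : ℝ) ^ 3 := by gcongr
    have h2 : (8 : ℝ) * (s : ℝ) ^ 2 ≤ (k : ℝ) ^ 3 := by
      rw [← hr3]
      calc (8 : ℝ) * r ^ 3 = (2 * r) ^ 3 := by ring
        _ ≤ _ := h1
    exact_mod_cast h2
  have hkup : (6 * k : ℝ) ≤ 12 * r + 36 := by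
    have h1 : (k : ℝ) ≤ 2 * r + 6 := by
      rw [hk, Nat.cast_max]
      apply max_le
      · push_cast
        linarith
      · have := (Nat.ceil_lt_add_one (by positivity : 0 ≤ 2 * r)).le
        linarith
    linarith
  have hcond : 2 * (s ^ 2 + 2 + k + k * s) ≤ k * (k + 3) * (k + 2) := by
    have h1 : 2 * (k * s) ≤ k ^ 2 + s ^ 2 := by
      have := two_mul_le_add_sq (k : ℤ) (s : ℤ)
      zify
      linarith
    nlinarith
  have he : 5 * s ≤ 4 * (s + (s + 3) / 4) := by omega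
  refine ⟨s + (s + 3) / 4, k, he, hk6, hcond, ?_⟩
  have h1 : s ^ 2 + s + 2 ≤ s ^ 3 := by nlinarith [Nat.mul_le_mul hs hs]
  have h2 : 2 ^ (s + (s + (s + 3) / 4)) * (s ^ 2 + s + 2) ^ (2 * k) ≤
      2 ^ (s + (s + (s + 3) / 4)) * s ^ (6 * k) := by
    calc 2 ^ (s + (s + (s + 3) / 4)) * (s ^ 2 + s + 2) ^ (2 * k) ≤
          2 ^ (s + (s + (s + 3) / 4)) * (s ^ 3) ^ (2 * k) := by gcongr
      _ = _ := by rw [← pow_mul]; ring_nf
  have h2' : ((2 ^ (s + (s + (s + 3) / 4)) * (s ^ 2 + s + 2) ^ (2 * k) : ℕ) : ℝ) ≤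
      ((2 ^ (s + (s + (s + 3) / 4)) * s ^ (6 * k) : ℕ) : ℝ) := by exact_mod_cast h2
  refine lt_of_le_of_lt h2' ?_
  have h3 : ((s + (s + (s + 3) / 4) : ℕ) : ℝ) ≤ 9 * (s : ℝ) / 4 + 1 := by
    have h4 : 4 * (s + (s + (s + 3) / 4)) ≤ 9 * s + 3 := by omega
    have h5 : (4 : ℝ) * ((s + (s + (s + 3) / 4) : ℕ) : ℝ) ≤ 9 * s + 3 := by exact_mod_cast h4
    linarith
  rw [Nat.cast_mul, Nat.cast_pow, Nat.cast_pow]
  have h5 : ((2 : ℕ) : ℝ) ^ (s + (s + (s + 3) / 4)) ≤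
      (2 : ℝ) ^ (9 * (s : ℝ) / 4) * 2 := by
    rw [← Real.rpow_natCast]
    calc ((2 : ℕ) : ℝ) ^ ((s + (s + (s + 3) / 4) : ℕ) : ℝ) ≤ (2 : ℝ) ^ (9 * (s : ℝ) / 4 + 1) := by
          exact Real.rpow_le_rpow_of_exponent_le (by norm_num) h3
      _ = (2 : ℝ) ^ (9 * (s : ℝ) / 4) * 2 := by
          rw [Real.rpow_add (by norm_num), Real.rpow_one]
  have h6 : ((s : ℕ) : ℝ) ^ (6 * k) ≤ (s : ℝ) ^ (12 * r + 36) := by
    rw [← Real.rpow_natCast]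
    apply Real.rpow_le_rpow_of_exponent_le (by linarith)
    push_cast
    exact hkup
  have h7 : (s : ℝ) ^ (12 * r + 38) = (s : ℝ) ^ (12 * r + 36) * (s : ℝ) ^ 2 := by
    rw [← Real.rpow_natCast, ← Real.rpow_add (by linarith)]
    congr 1
    push_cast
    ring
  have h8 : 0 < (s : ℝ) ^ (12 * r + 36) := by positivity
  have h9 : 0 < (2 : ℝ) ^ (9 * (s : ℝ) / 4) := by positivity
  unfold thr
  rw [h7]
  calc ((2 : ℕ) : ℝ) ^ (s + (s + (s + 3) / 4)) * ((s : ℕ) : ℝ) ^ (6 * k) ≤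
        ((2 : ℝ) ^ (9 * (s : ℝ) / 4) * 2) * (s : ℝ) ^ (12 * r + 36) :=
        mul_le_mul h5 h6 (by positivity) (by positivity)
    _ = (2 : ℝ) ^ (9 * (s : ℝ) / 4) * ((s : ℝ) ^ (12 * r + 36) * 2) := by ring
    _ < (2 : ℝ) ^ (9 * (s : ℝ) / 4) * ((s : ℝ) ^ (12 * r + 36) * (s : ℝ) ^ 2) := by
        have h10 : (2 : ℝ) < (s : ℝ) ^ 2 := by nlinarith
        gcongr

theorem thr_pos (s : ℕ) (hs : 2 ≤ s) : 0 < thr s := by
  have : (0 : ℝ) < s := by exact_mod_cast (by omega : 0 < s)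
  unfold thr
  positivity

/-- the main estimate -/
theorem main (s t : ℕ) (hs : 2 ≤ s) (ht : thr s ≤ t) (δ : ℝ) (hδ : 0 < δ) :
    ∀ᶠ n : ℕ in atTop, (1 - δ) * (⌊((t : ℝ) / thr s) ^ (1 / (s : ℝ))⌋₊ : ℝ) / 2 *
      (n : ℝ) ^ (2 - 1 / (s : ℝ)) ≤ ex n s t := by
  have hs0 : (0 : ℝ) < s := by exact_mod_cast (by omega : 0 < s)
  have hθ := thr_pos s hs
  set h : ℕ := ⌊((t : ℝ) / thr s) ^ (1 / (s : ℝ))⌋₊ with hh
  have hq : 1 ≤ (t : ℝ) / thr s := by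
    rw [le_div_iff₀ hθ]
    linarith
  have hh1 : 1 ≤ h := by
    rw [hh, Nat.one_le_floor_iff]
    exact Real.one_le_rpow hq (by positivity)
  obtain ⟨e, k, he, hk6, hk, hT⟩ := num s hs
  have hpow : (h : ℝ) ^ s ≤ (t : ℝ) / thr s := by
    have h1 : (h : ℝ) ≤ ((t : ℝ) / thr s) ^ (1 / (s : ℝ)) := Nat.floor_le (by positivity)
    calc (h : ℝ) ^ s ≤ (((t : ℝ) / thr s) ^ (1 / (s : ℝ))) ^ s :=
          pow_le_pow_left₀ (Nat.cast_nonneg _) h1 s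
      _ = (t : ℝ) / thr s := by
          rw [← Real.rpow_natCast, ← Real.rpow_mul (by positivity), one_div_mul_cancel hs0.ne',
            Real.rpow_one]
  have hlt : h ^ s * (2 ^ (s + e) * (s ^ 2 + s + 2) ^ (2 * k)) < t := by
    have h1 : ((h ^ s * (2 ^ (s + e) * (s ^ 2 + s + 2) ^ (2 * k)) : ℕ) : ℝ) < t := by
      rw [Nat.cast_mul, Nat.cast_pow]
      have h0 : 0 < (h : ℝ) ^ s := by
        have : (0 : ℝ) < h := by exact_mod_cast hh1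
        positivity
      calc (h : ℝ) ^ s * ((2 ^ (s + e) * (s ^ 2 + s + 2) ^ (2 * k) : ℕ) : ℝ) <
            (h : ℝ) ^ s * thr s := mul_lt_mul_of_pos_left hT h0
        _ ≤ (t : ℝ) / thr s * thr s := mul_le_mul_of_nonneg_right hpow hθ.le
        _ = t := by field_simp
    exact_mod_cast h1
  refine all_n hs hh1 ?_ δ hδ
  exact algY s e k t h hs he hk6 hk hh1 hlt

theorem tendsto_thr : Tendsto (fun s : ℕ => (thr s) ^ (1 / (s : ℝ))) atTop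
    (𝓝 ((2 : ℝ) ^ (9 / 4 : ℝ))) := by
  have h1 : Tendsto (fun x : ℝ => (12 * x ^ (2 / 3 : ℝ) + 38) * Real.log x / x) atTop (𝓝 0) := by
    have h2 : Tendsto (fun x : ℝ => Real.log x / x ^ (1 / 3 : ℝ)) atTop (𝓝 0) :=
      (isLittleO_log_rpow_atTop (by norm_num)).tendsto_div_nhds_zero
    have h3 : Tendsto (fun x : ℝ => Real.log x / x ^ (1 : ℝ)) atTop (𝓝 0) :=
      (isLittleO_log_rpow_atTop (by norm_num)).tendsto_div_nhds_zero
    have h4 := (h2.const_mul 12).add (h3.const_mul 38)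
    rw [mul_zero, mul_zero, add_zero] at h4
    refine h4.congr' ?_
    filter_upwards [eventually_gt_atTop 0] with x hx
    have h5 : x = x ^ (2 / 3 : ℝ) * x ^ (1 / 3 : ℝ) := by
      rw [← Real.rpow_add hx]
      norm_num
    have h6 : 0 < x ^ (1 / 3 : ℝ) := by positivity
    have h7 : 0 < x ^ (2 / 3 : ℝ) := by positivity
    rw [Real.rpow_one]
    have h8 : (12 : ℝ) * (Real.log x / x ^ (1 / 3 : ℝ)) =
        12 * x ^ (2 / 3 : ℝ) * Real.log x / x := by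
      have h9 : x ^ (2 / 3 : ℝ) / x = 1 / x ^ (1 / 3 : ℝ) := by
        rw [div_eq_div_iff hx.ne' h6.ne', one_mul]
        exact h5.symm
      calc (12 : ℝ) * (Real.log x / x ^ (1 / 3 : ℝ)) =
            12 * Real.log x * (1 / x ^ (1 / 3 : ℝ)) := by ring
        _ = 12 * Real.log x * (x ^ (2 / 3 : ℝ) / x) := by rw [h9]
        _ = _ := by ring
    rw [h8]
    ring
  have h7 : Tendsto (fun s : ℕ => (2 : ℝ) ^ (9 / 4 : ℝ) *
      Real.exp ((12 * (s : ℝ) ^ (2 / 3 : ℝ) + 38) * Real.log s / s)) atTop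
      (𝓝 ((2 : ℝ) ^ (9 / 4 : ℝ))) := by
    have h8 := ((Real.continuous_exp.tendsto 0).comp
      (h1.comp tendsto_natCast_atTop_atTop)).const_mul ((2 : ℝ) ^ (9 / 4 : ℝ))
    rw [Real.exp_zero, mul_one] at h8
    exact h8
  refine h7.congr' ?_
  filter_upwards [eventually_gt_atTop 0] with s hs
  have hs0 : (0 : ℝ) < s := by exact_mod_cast hs
  unfold thr
  rw [Real.mul_rpow (by positivity) (by positivity), ← Real.rpow_mul (by norm_num),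
    ← Real.rpow_mul hs0.le]
  congr 1
  · congr 1
    field_simp
  · rw [Real.rpow_def_of_pos hs0 ((12 * (s : ℝ) ^ (2 / 3 : ℝ) + 38) * (1 / (s : ℝ)))]
    congr 1
    ring

theorem rpow_div_eq (s t : ℕ) (hs : 2 ≤ s) : ((t : ℝ) / thr s) ^ (1 / (s : ℝ)) =
    (t : ℝ) ^ (1 / (s : ℝ)) / (thr s) ^ (1 / (s : ℝ)) :=
  Real.div_rpow (Nat.cast_nonneg _) (thr_pos s hs).le _

theorem abs_const : ∃ c : ℝ, 0 < c ∧ ∀ s t : ℕ, 2 ≤ s → thr s ≤ t →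
    ∀ᶠ n : ℕ in atTop, c * (t : ℝ) ^ (1 / (s : ℝ)) * (n : ℝ) ^ (2 - 1 / (s : ℝ)) ≤ ex n s t := by
  obtain ⟨B, hB⟩ := tendsto_thr.bddAbove_range
  have hB' : ∀ s : ℕ, (thr s) ^ (1 / (s : ℝ)) ≤ B := fun s => hB ⟨s, rfl⟩
  have hB0 : 0 < B := lt_of_lt_of_le (by have := thr_pos 2 le_rfl; positivity) (hB' 2)
  refine ⟨1 / (8 * B), by positivity, ?_⟩
  intro s t hs ht
  filter_upwards [main s t hs ht (1 / 2) (by norm_num)] with n hn
  refine le_trans ?_ hn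
  refine mul_le_mul_of_nonneg_right ?_ (by positivity)
  have hθ := thr_pos s hs
  have hq : 1 ≤ (t : ℝ) / thr s := by
    rw [le_div_iff₀ hθ]
    linarith
  set x : ℝ := ((t : ℝ) / thr s) ^ (1 / (s : ℝ)) with hx
  have hx1 : 1 ≤ x := Real.one_le_rpow hq (by positivity)
  have h1 : x / 2 ≤ (⌊x⌋₊ : ℝ) := by
    have h2 : (1 : ℝ) ≤ (⌊x⌋₊ : ℝ) := by
      have : 1 ≤ ⌊x⌋₊ := by rw [Nat.one_le_floor_iff]; exact hx1
      exact_mod_cast this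
    have h3 := Nat.lt_floor_add_one x
    linarith
  have h4 : (t : ℝ) ^ (1 / (s : ℝ)) / B ≤ x := by
    rw [hx, rpow_div_eq s t hs]
    exact div_le_div_of_nonneg_left (by positivity) (by positivity) (hB' s)
  calc 1 / (8 * B) * (t : ℝ) ^ (1 / (s : ℝ)) = ((t : ℝ) ^ (1 / (s : ℝ)) / B) / 8 := by
        field_simp
    _ ≤ (1 - 1 / 2) * (⌊x⌋₊ : ℝ) / 2 := by linarith

theorem large_s (ε : ℝ) (hε : 0 < ε) : ∀ᶠ s : ℕ in atTop, ∀ᶠ t : ℕ in atTop,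
    ∀ᶠ n : ℕ in atTop, (1 - ε) * (2 : ℝ) ^ (-9 / 4 : ℝ) * ((t : ℝ) ^ (1 / (s : ℝ)) / 2) *
      (n : ℝ) ^ (2 - 1 / (s : ℝ)) ≤ ex n s t := by
  rcases le_or_gt 1 ε with hε1 | hε1
  · refine Eventually.of_forall fun s => Eventually.of_forall fun t => Eventually.of_forall
      fun n => ?_
    have h1 : 0 ≤ (2 : ℝ) ^ (-9 / 4 : ℝ) * ((t : ℝ) ^ (1 / (s : ℝ)) / 2) *
      (n : ℝ) ^ (2 - 1 / (s : ℝ)) := by positivity
    have h2 : 0 ≤ ex n s t := by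
      unfold ex
      positivity
    have h3 : (1 - ε) * ((2 : ℝ) ^ (-9 / 4 : ℝ) * ((t : ℝ) ^ (1 / (s : ℝ)) / 2) *
      (n : ℝ) ^ (2 - 1 / (s : ℝ))) ≤ 0 := mul_nonpos_of_nonpos_of_nonneg (by linarith) h1
    calc _ = (1 - ε) * ((2 : ℝ) ^ (-9 / 4 : ℝ) * ((t : ℝ) ^ (1 / (s : ℝ)) / 2) *
      (n : ℝ) ^ (2 - 1 / (s : ℝ))) := by ring
      _ ≤ _ := h3.trans h2
  set K : ℝ := (2 : ℝ) ^ (9 / 4 : ℝ) with hK
  have hK0 : 0 < K := by positivity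
  have hKinv : (2 : ℝ) ^ (-9 / 4 : ℝ) = K⁻¹ := by
    rw [hK, ← Real.rpow_neg (by norm_num)]
    norm_num
  have h1 : ∀ᶠ s : ℕ in atTop, (thr s) ^ (1 / (s : ℝ)) < K * (1 + ε / 3) :=
    tendsto_thr.eventually_lt_const (by nlinarith)
  filter_upwards [h1, eventually_ge_atTop 2] with s hs1 hs
  have hs0 : (0 : ℝ) < s := by exact_mod_cast (by omega : 0 < s)
  have hθ := thr_pos s hs
  have h2 : Tendsto (fun t : ℕ => ((t : ℝ) / thr s) ^ (1 / (s : ℝ))) atTop atTop := by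
    refine (tendsto_rpow_atTop (by positivity)).comp ?_
    exact Tendsto.atTop_div_const hθ tendsto_natCast_atTop_atTop
  filter_upwards [h2.eventually_ge_atTop (3 / ε),
    tendsto_natCast_atTop_atTop.eventually_ge_atTop (thr s)] with t ht1 ht2
  filter_upwards [main s t hs ht2 (ε / 3) (by linarith)] with n hn
  refine le_trans ?_ hn
  refine mul_le_mul_of_nonneg_right ?_ (by positivity)
  rw [hKinv]
  set x : ℝ := ((t : ℝ) / thr s) ^ (1 / (s : ℝ)) with hx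
  have hx0 : 0 < x := lt_of_lt_of_le (by positivity) ht1
  have h3 : (1 - ε / 3) * x ≤ (⌊x⌋₊ : ℝ) := by
    have h4 := Nat.lt_floor_add_one x
    have h5 : 1 ≤ ε / 3 * x := by
      rw [div_le_iff₀ hε] at ht1
      linarith
    linarith
  have h4 : (t : ℝ) ^ (1 / (s : ℝ)) ≤ x * (K * (1 + ε / 3)) := by
    have h5 : (t : ℝ) ^ (1 / (s : ℝ)) = x * (thr s) ^ (1 / (s : ℝ)) := by
      rw [hx, rpow_div_eq s t hs]
      field_simp
    rw [h5]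
    exact mul_le_mul_of_nonneg_left hs1.le hx0.le
  have h5 : K⁻¹ * (t : ℝ) ^ (1 / (s : ℝ)) ≤ x * (1 + ε / 3) := by
    rw [inv_mul_le_iff₀ hK0]
    linarith
  have h6 : (1 - ε) * (1 + ε / 3) ≤ (1 - ε / 3) * (1 - ε / 3) := by nlinarith
  calc (1 - ε) * K⁻¹ * ((t : ℝ) ^ (1 / (s : ℝ)) / 2) =
        (1 - ε) * (K⁻¹ * (t : ℝ) ^ (1 / (s : ℝ))) / 2 := by ring
    _ ≤ (1 - ε) * (x * (1 + ε / 3)) / 2 := by
        have := mul_le_mul_of_nonneg_left h5 (by linarith : 0 ≤ 1 - ε)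
        linarith
    _ = ((1 - ε) * (1 + ε / 3)) * x / 2 := by ring
    _ ≤ ((1 - ε / 3) * (1 - ε / 3)) * x / 2 := by
        have := mul_le_mul_of_nonneg_right h6 hx0.le
        linarith
    _ = (1 - ε / 3) * ((1 - ε / 3) * x) / 2 := by ring
    _ ≤ (1 - ε / 3) * (⌊x⌋₊ : ℝ) / 2 := by
        have := mul_le_mul_of_nonneg_left h3 (by linarith : 0 ≤ 1 - ε / 3)
        linarith

end Pool.Agent.J4H55.ZC
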