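import Pool.Agent.N684.BK.Alg4

/-!
The statement COM for cosets of spaces of polynomials vanishing at points.
-/

set_option autoImplicit false

open MvPolynomial

namespace Pool.Agent.J4H55.ZC

open Pool.Agent.N684.BK

/-- the statement COM for intermediate spaces -/
theorem com_gen (hCOM : S_COM) (s e k : ℕ) (hs : 1 ≤ s)
    (hk : 2 * (s ^ 2 + 2 + k + k * s) ≤ k * (k + 3) * (k + 2)) :
    ∃ C : ℕ, ∀ (F : Type) [Field F] [Fintype F]
    (W H : Submodule F (MvPolynomial (Fin (s + e + k)) F)),
    W = PW F (wD s e k (s ^ 2 + s + 2)) (2 * (s ^ 2 + s + 2)) →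
    H = PW F (wD s e k (s ^ 2 + s + 2)) ((s ^ 2 + s + 2) ^ 2) →
    ∀ A : Fin s → Fin (s + e + k) → F, Ind W A →
    ∀ U1 : Fin s → Submodule F (MvPolynomial (Fin (s + e + k)) F),
    (∀ i, van W A ≤ U1 i ∧ U1 i ≤ W) →
    Fintype.card F ^ (s ^ 2 + 2) * Nat.card
      {x : ((Fin e → van W A) × (Fin k → van H A)) × (∀ i : Fin s, U1 i) //
        2 ^ (s + e) * (s ^ 2 + s + 2) ^ (2 * k) < Set.ncard {y : Fin (s + e + k) → F |
          (∀ i, eval y (x.1.1 i : MvPolynomial (Fin (s + e + k)) F) = 0) ∧
          (∀ i, eval y (x.1.2 i : MvPolynomial (Fin (s + e + k)) F) = 0) ∧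
          (∀ i, eval y (x.2 i : MvPolynomial (Fin (s + e + k)) F) = 0)}} ≤
      C * (Nat.card (van W A) ^ e * Nat.card (van H A) ^ k * ∏ i, Nat.card (U1 i)) := by
  obtain ⟨C, hC⟩ := hCOM s e k hs hk
  refine ⟨C, ?_⟩
  intro F _ _ W H hW hH A hA U1 hU1
  have hwt : ∀ i, 1 ≤ wD s e k (s ^ 2 + s + 2) i := by
    intro i
    unfold wD
    split_ifs
    · omega
    · exact le_rfl
  have hWf : Module.Finite F W := by rw [hW]; exact PW_finite _ hwt _
  have hHf : Module.Finite F H := by rw [hH]; exact PW_finite _ hwt _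
  have hWH : W ≤ H := by
    rw [hW, hH]
    refine PW_mono ?_
    nlinarith [Nat.zero_le (s ^ 2 + s)]
  have hvW := van_finite W A
  have hvH := van_finite H A
  have hU1f : ∀ i, Module.Finite F (U1 i) := fun i =>
    Submodule.finiteDimensional_of_le (hU1 i).2
  let E : (Fin s ⊕ Fin e) ⊕ Fin k ≃ Fin (s + e + k) :=
    (Equiv.sumCongr finSumFinEquiv (Equiv.refl _)).trans finSumFinEquiv
  let Us : (Fin s ⊕ Fin e) ⊕ Fin k → Submodule F (MvPolynomial (Fin (s + e + k)) F) :=
    Sum.elim (Sum.elim U1 (fun _ => van W A)) (fun _ => van H A)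
  have hUf : ∀ z, Module.Finite F (Us z) := by
    rintro ((z | z) | z)
    · exact hU1f z
    · exact hvW
    · exact hvH
  have hUf2 : ∀ z, Finite (Us z) := fun z => by
    have := hUf z
    exact finite_sub _
  let U : Fin (s + e + k) → Submodule F (MvPolynomial (Fin (s + e + k)) F) :=
    fun i => Us (E.symm i)
  have hcA : Fintype.card (Fin s) = s := Fintype.card_fin s
  have key := hC F U (by
      intro i hi
      obtain ⟨z, rfl⟩ := E.surjective i
      show Us (E.symm (E z)) ≤ _ ∧ _ ≤ Module.finrank F (Us (E.symm (E z))) + s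
      rw [E.symm_apply_apply, ← hW]
      rcases z with (z | z) | z
      · refine ⟨(hU1 z).2, ?_⟩
        have h1 := finrank_van hA
        rw [hcA] at h1
        have h2 : Module.finrank F (van W A) ≤ Module.finrank F (U1 z) :=
          Submodule.finrank_mono (hU1 z).1
        show Module.finrank F W ≤ Module.finrank F (U1 z) + s
        omega
      · refine ⟨van_le W A, ?_⟩
        have h1 := finrank_van hA
        rw [hcA] at h1
        exact h1.ge
      · exfalso
        simp [E] at hi) (by
      intro i hi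
      obtain ⟨z, rfl⟩ := E.surjective i
      show Us (E.symm (E z)) ≤ _ ∧ _ ≤ Module.finrank F (Us (E.symm (E z))) + s
      rw [E.symm_apply_apply, ← hH]
      rcases z with (z | z) | z
      · exfalso
        have h1 : (z : ℕ) < s := z.2
        simp [E] at hi
        omega
      · exfalso
        have h1 : (z : ℕ) < e := z.2
        simp [E] at hi
        omega
      · refine ⟨van_le H A, ?_⟩
        have h1 := finrank_van (hA.mono hWH)
        rw [hcA] at h1
        exact h1.ge)
  have hprod : ∏ i, Nat.card (U i) =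
      Nat.card (van W A) ^ e * Nat.card (van H A) ^ k * ∏ i, Nat.card (U1 i) := by
    have h1 : ∏ i, Nat.card (U i) = ∏ z, Nat.card (Us z) :=
      Equiv.prod_comp E.symm (fun z => Nat.card (Us z))
    rw [h1, Fintype.prod_sum_type, Fintype.prod_sum_type]
    simp only [Us, Sum.elim_inl, Sum.elim_inr, Finset.prod_const, Finset.card_univ,
      Fintype.card_fin]
    ring
  rw [hprod] at key
  refine le_trans (Nat.mul_le_mul_left _ ?_) key
  let v : (((Fin e → van W A) × (Fin k → van H A)) × (∀ i : Fin s, U1 i)) → ∀ z, Us z :=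
    fun x z =>
    match z with
    | Sum.inl (Sum.inl a) => x.2 a
    | Sum.inl (Sum.inr a) => x.1.1 a
    | Sum.inr a => x.1.2 a
  have hfin : Finite (∀ i, U i) := by
    have : ∀ i, Finite (U i) := fun i => hUf2 _
    infer_instance
  refine Nat.card_le_card_of_injective (fun x => ⟨fun i => v x.1 (E.symm i), ?_⟩) ?_
  · have h2 := x.2
    have h3 : {y : Fin (s + e + k) → F |
          (∀ i, eval y (x.1.1.1 i : MvPolynomial (Fin (s + e + k)) F) = 0) ∧
          (∀ i, eval y (x.1.1.2 i : MvPolynomial (Fin (s + e + k)) F) = 0) ∧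
          (∀ i, eval y (x.1.2 i : MvPolynomial (Fin (s + e + k)) F) = 0)} =
        {y : Fin (s + e + k) → F | ∀ i,
          eval y (v x.1 (E.symm i) : MvPolynomial (Fin (s + e + k)) F) = 0} := by
      ext y
      simp only [Set.mem_ofPred_eq]
      constructor
      · rintro ⟨h4, h5, h6⟩ i
        rcases E.symm i with (z | z) | z
        · exact h6 z
        · exact h4 z
        · exact h5 z
      · intro h4
        refine ⟨fun z => ?_, fun z => ?_, fun z => ?_⟩
        · have := h4 (E (Sum.inl (Sum.inr z)))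
          rw [E.symm_apply_apply] at this
          exact this
        · have := h4 (E (Sum.inr z))
          rw [E.symm_apply_apply] at this
          exact this
        · have := h4 (E (Sum.inl (Sum.inl z)))
          rw [E.symm_apply_apply] at this
          exact this
    rw [h3] at h2
    exact h2
  · intro x x' hxx
    have h4 : ∀ i, v x.1 (E.symm i) = v x'.1 (E.symm i) := fun i =>
      congrFun (congrArg Subtype.val hxx) i
    have h5 : ∀ z, v x.1 z = v x'.1 z := by
      intro z
      have := h4 (E z)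
      rw [E.symm_apply_apply] at this
      exact this
    apply Subtype.ext
    apply Prod.ext
    · apply Prod.ext
      · funext z
        exact h5 (Sum.inl (Sum.inr z))
      · funext z
        exact h5 (Sum.inr z)
    · funext z
      exact h5 (Sum.inl (Sum.inl z))

/-- cosets: `g₀ i` plus a random polynomial vanishing at the points -/
theorem com_affine (hCOM : S_COM) (s e k : ℕ) (hs : 1 ≤ s)
    (hk : 2 * (s ^ 2 + 2 + k + k * s) ≤ k * (k + 3) * (k + 2)) :
    ∃ C : ℕ, ∀ (F : Type) [Field F] [Fintype F]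
    (W H : Submodule F (MvPolynomial (Fin (s + e + k)) F)),
    W = PW F (wD s e k (s ^ 2 + s + 2)) (2 * (s ^ 2 + s + 2)) →
    H = PW F (wD s e k (s ^ 2 + s + 2)) ((s ^ 2 + s + 2) ^ 2) →
    ∀ A : Fin s → Fin (s + e + k) → F, Ind W A → ∀ g₀ : Fin s → W,
    Fintype.card F ^ (s ^ 2 + 2) * Nat.card
      {x : ((Fin e → van W A) × (Fin k → van H A)) × (Fin s → van W A) //
        2 ^ (s + e) * (s ^ 2 + s + 2) ^ (2 * k) < Set.ncard {y : Fin (s + e + k) → F |
          (∀ i, eval y (x.1.1 i : MvPolynomial (Fin (s + e + k)) F) = 0) ∧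
          (∀ i, eval y (x.1.2 i : MvPolynomial (Fin (s + e + k)) F) = 0) ∧
          (∀ i, eval y ((g₀ i : MvPolynomial (Fin (s + e + k)) F) + x.2 i) = 0)}} ≤
      C * (Nat.card ((Fin e → van W A) × (Fin k → van H A)) * Nat.card (Fin s → van W A)) := by
  obtain ⟨C, hC⟩ := com_gen hCOM s e k hs hk
  refine ⟨2 ^ s * C, ?_⟩
  intro F _ _ W H hW hH A hA g₀
  classical
  have hwt : ∀ i, 1 ≤ wD s e k (s ^ 2 + s + 2) i := by
    intro i
    unfold wD
    split_ifs
    · omega
    · exact le_rfl
  have hWf : Module.Finite F W := by rw [hW]; exact PW_finite _ hwt _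
  have hHf : Module.Finite F H := by rw [hH]; exact PW_finite _ hwt _
  have hvW := van_finite W A
  have hvH := van_finite H A
  have fvW := finite_sub (van W A)
  have fvH := finite_sub (van H A)
  let U1 : Fin s → Submodule F (MvPolynomial (Fin (s + e + k)) F) :=
    fun i => van W A ⊔ Submodule.span F {(g₀ i : MvPolynomial (Fin (s + e + k)) F)}
  have hU1 : ∀ i, van W A ≤ U1 i ∧ U1 i ≤ W := fun i => ⟨le_sup_left, sup_le (van_le W A)
    ((Submodule.span_singleton_le_iff_mem _ _).2 (g₀ i).2)⟩
  have key := hC F W H hW hH A hA U1 hU1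
  set T := 2 ^ (s + e) * (s ^ 2 + s + 2) ^ (2 * k) with hT
  let Z := (Fin e → van W A) × (Fin k → van H A)
  have hmem : ∀ (i : Fin s) (c : F) (w : van W A),
      c • (g₀ i : MvPolynomial (Fin (s + e + k)) F) + w ∈ U1 i := fun i c w =>
    (U1 i).add_mem (Submodule.mem_sup_right (Submodule.smul_mem _ _
      (Submodule.mem_span_singleton_self _))) (Submodule.mem_sup_left w.2)
  let φ : (Fin s → F × van W A) →ₗ[F] (∀ i, U1 i) :=
    { toFun := fun z i => ⟨(z i).1 • (g₀ i : MvPolynomial (Fin (s + e + k)) F) + (z i).2,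
        hmem i _ _⟩
      map_add' := fun z z' => by
        funext i
        apply Subtype.ext
        show ((z i).1 + (z' i).1) • (g₀ i : MvPolynomial (Fin (s + e + k)) F) +
          (((z i).2 + (z' i).2 : van W A) : MvPolynomial (Fin (s + e + k)) F) =
          ((z i).1 • (g₀ i : MvPolynomial (Fin (s + e + k)) F) + (z i).2) +
          ((z' i).1 • (g₀ i : MvPolynomial (Fin (s + e + k)) F) + (z' i).2)
        rw [Submodule.coe_add, add_smul]
        abel
      map_smul' := fun c z => by
        funext i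
        apply Subtype.ext
        show (c • (z i).1) • (g₀ i : MvPolynomial (Fin (s + e + k)) F) +
          ((c • (z i).2 : van W A) : MvPolynomial (Fin (s + e + k)) F) =
          c • ((z i).1 • (g₀ i : MvPolynomial (Fin (s + e + k)) F) + (z i).2)
        rw [Submodule.coe_smul, smul_add, smul_assoc] }
  have hφ : Function.Surjective φ := by
    intro u
    have h1 : ∀ i, ∃ z : F × van W A,
        z.1 • (g₀ i : MvPolynomial (Fin (s + e + k)) F) + z.2 = u i := by
      intro i
      obtain ⟨w, hw, v, hv, h2⟩ := Submodule.mem_sup.1 (u i).2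
      obtain ⟨c, rfl⟩ := Submodule.mem_span_singleton.1 hv
      exact ⟨(c, ⟨w, hw⟩), (add_comm _ _).trans h2⟩
    choose z hz using h1
    refine ⟨z, ?_⟩
    funext i
    exact Subtype.ext (hz i)
  let p : Z → (∀ i, U1 i) → Prop := fun x u => T < Set.ncard {y : Fin (s + e + k) → F |
          (∀ i, eval y (x.1 i : MvPolynomial (Fin (s + e + k)) F) = 0) ∧
          (∀ i, eval y (x.2 i : MvPolynomial (Fin (s + e + k)) F) = 0) ∧
          (∀ i, eval y (u i : MvPolynomial (Fin (s + e + k)) F) = 0)}
  have hfib := card_fib (Z := Z) φ hφ p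
  let B := {x : Z × (Fin s → van W A) //
        T < Set.ncard {y : Fin (s + e + k) → F |
          (∀ i, eval y (x.1.1 i : MvPolynomial (Fin (s + e + k)) F) = 0) ∧
          (∀ i, eval y (x.1.2 i : MvPolynomial (Fin (s + e + k)) F) = 0) ∧
          (∀ i, eval y ((g₀ i : MvPolynomial (Fin (s + e + k)) F) + x.2 i) = 0)}}
  have hinj : Nat.card (Fin s → Fˣ) * Nat.card B ≤
      Nat.card {z : Z × (Fin s → F × van W A) // p z.1 (φ z.2)} := by
    rw [← Nat.card_prod]
    refine Nat.card_le_card_of_injective (fun z => ⟨(z.2.1.1, fun i =>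
      ((z.1 i : F), (z.1 i : F) • z.2.1.2 i)), ?_⟩) ?_
    · have h2 := z.2.2
      show T < Set.ncard {y : Fin (s + e + k) → F |
          (∀ i, eval y (z.2.1.1.1 i : MvPolynomial (Fin (s + e + k)) F) = 0) ∧
          (∀ i, eval y (z.2.1.1.2 i : MvPolynomial (Fin (s + e + k)) F) = 0) ∧
          (∀ i, eval y ((z.1 i : F) • (g₀ i : MvPolynomial (Fin (s + e + k)) F) +
            (((z.1 i : F) • z.2.1.2 i : van W A) : MvPolynomial (Fin (s + e + k)) F)) = 0)}
      have h3 : ∀ (y : Fin (s + e + k) → F) (i : Fin s),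
          eval y ((z.1 i : F) • (g₀ i : MvPolynomial (Fin (s + e + k)) F) +
            (((z.1 i : F) • z.2.1.2 i : van W A) : MvPolynomial (Fin (s + e + k)) F)) = 0 ↔
          eval y ((g₀ i : MvPolynomial (Fin (s + e + k)) F) + z.2.1.2 i) = 0 := by
        intro y i
        rw [Submodule.coe_smul, ← smul_add, smul_eval, mul_eq_zero]
        constructor
        · rintro (h | h)
          · exact absurd h (z.1 i).ne_zero
          · exact h
        · exact Or.inr
      simp only [h3]
      exact h2
    · rintro ⟨l, x⟩ ⟨l', x'⟩ hh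
      have h1 := congrArg Subtype.val hh
      simp only [Prod.mk.injEq] at h1
      obtain ⟨h2, h3⟩ := h1
      have h4 : l = l' := by
        funext i
        exact Units.ext (congrArg Prod.fst (congrFun h3 i))
      subst h4
      congr 1
      apply Subtype.ext
      apply Prod.ext h2
      funext i
      have h5 := congrArg Prod.snd (congrFun h3 i)
      simp only at h5
      have h6 := congrArg (fun w => ((l i)⁻¹ : F) • w) h5
      simp only [smul_smul, inv_mul_cancel₀ (l i).ne_zero, one_smul] at h6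
      exact h6
  have hU1f : ∀ i, Finite (U1 i) := fun i => by
    have : Module.Finite F (U1 i) := Submodule.finiteDimensional_of_le (hU1 i).2
    exact finite_sub _
  have hMpos : 0 < Nat.card (∀ i, U1 i) := Nat.card_pos
  have hcM : Nat.card (Fin s → F × van W A) = Fintype.card F ^ s * Nat.card (Fin s → van W A) := by
    rw [Nat.card_fun, Nat.card_prod, Nat.card_fun, Nat.card_eq_fintype_card (α := Fin s),
      Fintype.card_fin, mul_pow, Nat.card_eq_fintype_card (α := F)]
  have hcU : Nat.card (∀ i, U1 i) = ∏ i, Nat.card (U1 i) := Nat.card_pi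
  have hcZ : Nat.card Z = Nat.card (van W A) ^ e * Nat.card (van H A) ^ k := by
    rw [Nat.card_prod, Nat.card_fun, Nat.card_fun, Nat.card_eq_fintype_card (α := Fin e),
      Fintype.card_fin, Nat.card_eq_fintype_card (α := Fin k), Fintype.card_fin]
  have hcF : Nat.card (Fin s → Fˣ) = (Fintype.card F - 1) ^ s := by
    rw [Nat.card_fun, Nat.card_eq_fintype_card (α := Fin s), Fintype.card_fin,
      Nat.card_eq_fintype_card (α := Fˣ), Fintype.card_units]
  rw [← hcZ, ← hcU] at key
  have hkey : Fintype.card F ^ (s ^ 2 + 2) * Nat.card {z : Z × (∀ i, U1 i) // p z.1 z.2} ≤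
      C * (Nat.card Z * Nat.card (∀ i, U1 i)) := key
  -- cancel the number of elements of the product
  have h1 : Fintype.card F ^ (s ^ 2 + 2) *
      Nat.card {z : Z × (Fin s → F × van W A) // p z.1 (φ z.2)} ≤
      C * (Nat.card Z * Nat.card (Fin s → F × van W A)) := by
    refine Nat.le_of_mul_le_mul_right ?_ hMpos
    calc _ = Fintype.card F ^ (s ^ 2 + 2) *
          (Nat.card {z : Z × (Fin s → F × van W A) // p z.1 (φ z.2)} *
            Nat.card (∀ i, U1 i)) := by ring
      _ = (Fintype.card F ^ (s ^ 2 + 2) * Nat.card {z : Z × (∀ i, U1 i) // p z.1 z.2}) *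
            Nat.card (Fin s → F × van W A) := by rw [hfib]; ring
      _ ≤ (C * (Nat.card Z * Nat.card (∀ i, U1 i))) * Nat.card (Fin s → F × van W A) :=
          Nat.mul_le_mul_right _ hkey
      _ = _ := by ring
  have hq2 : 2 ≤ Fintype.card F := Fintype.one_lt_card
  have hq3 : Fintype.card F ^ s ≤ 2 ^ s * (Fintype.card F - 1) ^ s := by
    rw [← mul_pow]
    exact Nat.pow_le_pow_left (by omega) s
  have hqpos : 0 < (Fintype.card F - 1) ^ s := Nat.pow_pos (by omega)
  refine Nat.le_of_mul_le_mul_left ?_ hqpos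
  calc (Fintype.card F - 1) ^ s * (Fintype.card F ^ (s ^ 2 + 2) * Nat.card B)
      = Fintype.card F ^ (s ^ 2 + 2) * (Nat.card (Fin s → Fˣ) * Nat.card B) := by
        rw [hcF]; ring
    _ ≤ Fintype.card F ^ (s ^ 2 + 2) *
        Nat.card {z : Z × (Fin s → F × van W A) // p z.1 (φ z.2)} := Nat.mul_le_mul_left _ hinj
    _ ≤ C * (Nat.card Z * Nat.card (Fin s → F × van W A)) := h1
    _ = C * (Nat.card Z * (Fintype.card F ^ s * Nat.card (Fin s → van W A))) := by rw [hcM]
    _ ≤ C * (Nat.card Z * ((2 ^ s * (Fintype.card F - 1) ^ s) * Nat.card (Fin s → van W A))) := by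
        gcongr
    _ = _ := by ring

end Pool.Agent.J4H55.ZC
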