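import Pool.Agent.J4H55.ZC.Sym1
import Pool.Agent.J4H55.ZC.Level

/-!
The bad event for symmetric forms.
-/

set_option autoImplicit false

open MvPolynomial

namespace Pool.Agent.J4H55.ZC

open Pool.Agent.N684.BK

section
variable {F : Type} [Field F] {N : ℕ}

/-- the symmetric form -/
noncomputable def symb {n : ℕ} (b : Fin n → MvPolynomial (Fin N) F) (a : Fin n → Fin n → F)
    (x y : Fin N → F) : F := bil b a x y + bil b a y x

theorem symb_symm {n : ℕ} (b : Fin n → MvPolynomial (Fin N) F) (a : Fin n → Fin n → F)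
    (x y : Fin N → F) : symb b a x y = symb b a y x := add_comm _ _

theorem symb_add {n : ℕ} (b : Fin n → MvPolynomial (Fin N) F)
    (a a' : Fin n → Fin n → F) (x y : Fin N → F) :
    symb b (a + a') x y = symb b a x y + symb b a' x y := by
  unfold symb
  rw [bil_add, bil_add]
  ring

/-- the symmetric form as a linear map in the coefficients -/
noncomputable def symL {n : ℕ} (b : Fin n → MvPolynomial (Fin N) F)
    (x y : Fin N → F) : (Fin n → Fin n → F) →ₗ[F] F := bilL b x y + bilL b y x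

theorem symL_apply {n : ℕ} (b : Fin n → MvPolynomial (Fin N) F)
    (x y : Fin N → F) (a : Fin n → Fin n → F) : symL b x y a = symb b a x y := rfl

theorem bil_outer {n : ℕ} {W : Submodule F (MvPolynomial (Fin N) F)}
    (b : Module.Basis (Fin n) F W) (u w : W) (x y : Fin N → F) :
    bil (fun l => (b l : MvPolynomial (Fin N) F)) (fun l m => b.repr u l * b.repr w m) x y =
      eval x (u : MvPolynomial (Fin N) F) * eval y (w : MvPolynomial (Fin N) F) := by
  have h : ∀ (v : W) (z : Fin N → F), eval z (v : MvPolynomial (Fin N) F) =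
      ∑ l, b.repr v l * eval z (b l : MvPolynomial (Fin N) F) := by
    intro v z
    conv_lhs => rw [← b.sum_repr v]
    rw [Submodule.coe_sum, map_sum]
    refine Finset.sum_congr rfl fun l _ => ?_
    rw [Submodule.coe_smul, smul_eval]
  rw [h u x, h w y, Finset.sum_mul_sum]
  unfold bil
  refine Finset.sum_congr rfl fun l _ => Finset.sum_congr rfl fun m _ => ?_
  ring

theorem symL_surj {n : ℕ} {W : Submodule F (MvPolynomial (Fin N) F)}
    (h1 : 1 ∈ W) (b : Module.Basis (Fin n) F W) (h2 : (2 : F) ≠ 0) (x y : Fin N → F) :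
    Function.Surjective (symL (fun l => (b l : MvPolynomial (Fin N) F)) x y) := by
  intro c
  refine ⟨(c / 2) • (fun l m => b.repr ⟨1, h1⟩ l * b.repr ⟨1, h1⟩ m), ?_⟩
  rw [map_smul, symL_apply]
  unfold symb
  rw [bil_outer, bil_outer]
  simp only [map_one, mul_one, smul_eq_mul]
  field_simp
  norm_num

/-- forms with prescribed vanishing polynomials -/
theorem exists_form {n s : ℕ} {W : Submodule F (MvPolynomial (Fin N) F)}
    (b : Module.Basis (Fin n) F W) {A : Fin s → Fin N → F} (h : Ind W A)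
    (w : Fin s → van W A) : ∃ a : Fin n → Fin n → F, ∀ i y,
      symb (fun l => (b l : MvPolynomial (Fin N) F)) a (A i) y =
        eval y (w i : MvPolynomial (Fin N) F) := by
  classical
  have h1 : ∀ j : Fin s, ∃ u : W, ∀ i, eval (A i) (u : MvPolynomial (Fin N) F) =
      if i = j then 1 else 0 := by
    intro j
    obtain ⟨u, hu⟩ := h (fun i => if i = j then 1 else 0)
    exact ⟨u, fun i => congrFun hu i⟩
  choose u hu using h1
  let w' : Fin s → W := fun j => ⟨w j, (mem_van.1 (w j).2).1⟩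
  have hw' : ∀ j i, eval (A i) (w' j : MvPolynomial (Fin N) F) = 0 := fun j i =>
    (mem_van.1 (w j).2).2 i
  refine ⟨∑ j, fun l m => b.repr (u j) l * b.repr (w' j) m, fun i y => ?_⟩
  have h2 : ∀ x y : Fin N → F, bil (fun l => (b l : MvPolynomial (Fin N) F))
      (∑ j, fun l m => b.repr (u j) l * b.repr (w' j) m) x y =
      ∑ j, eval x (u j : MvPolynomial (Fin N) F) * eval y (w' j : MvPolynomial (Fin N) F) := by
    intro x y
    have h3 := map_sum (bilL (fun l => (b l : MvPolynomial (Fin N) F)) x y)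
      (fun j => fun l m => b.repr (u j) l * b.repr (w' j) m) Finset.univ
    refine h3.trans ?_
    exact Finset.sum_congr rfl fun j _ => bil_outer b (u j) (w' j) x y
  unfold symb
  rw [h2, h2]
  simp only [hw', mul_zero, Finset.sum_const_zero, add_zero, hu, ite_mul, one_mul, zero_mul,
    Finset.sum_ite_eq, Finset.mem_univ, if_true]
  rfl

/-- the polynomials of the family -/
theorem exists_gmS {n s : ℕ} {W : Submodule F (MvPolynomial (Fin N) F)}
    (b : Module.Basis (Fin n) F W) (A : Fin s → Fin N → F) (a : Fin n → Fin n → F) :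
    ∃ g : Fin s → W, ∀ i y, eval y (g i : MvPolynomial (Fin N) F) =
      symb (fun l => (b l : MvPolynomial (Fin N) F)) a (A i) y := by
  refine ⟨fun i => gm b A a i + gm b A (fun l m => a m l) i, fun i y => ?_⟩
  rw [Submodule.coe_add, map_add, eval_gm, eval_gm, bil_swap _ a y (A i)]
  rfl

end

theorem badS (hCOM : S_COM) (s e k : ℕ) (hs : 1 ≤ s)
    (hk : 2 * (s ^ 2 + 2 + k + k * s) ≤ k * (k + 3) * (k + 2)) :
    ∃ C : ℕ, ∀ (F : Type) [Field F] [Fintype F]
    (W H : Submodule F (MvPolynomial (Fin (s + e + k)) F)),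
    W = PW F (wD s e k (s ^ 2 + s + 2)) (2 * (s ^ 2 + s + 2)) →
    H = PW F (wD s e k (s ^ 2 + s + 2)) ((s ^ 2 + s + 2) ^ 2) →
    ∀ (n : ℕ) (b : Module.Basis (Fin n) F W) (A : Fin s → Fin (s + e + k) → F), Ind W A →
    ∀ c : Fin s → F,
    Fintype.card F ^ (s ^ 2 + 2 + s * (e + k)) * Nat.card
      {z : ((Fin e → W) × (Fin k → H)) × (Fin n → Fin n → F) // Set.range A ⊆ VV z.1 ∧
        2 ^ (s + e) * (s ^ 2 + s + 2) ^ (2 * k) < Set.ncard {y : Fin (s + e + k) → F |
          y ∈ VV z.1 ∧
          ∀ i, symb (fun l => (b l : MvPolynomial (Fin (s + e + k)) F)) z.2 (A i) y = c i}} ≤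
      C * (Nat.card ((Fin e → W) × (Fin k → H)) * Nat.card (Fin n → Fin n → F)) := by
  obtain ⟨C, hC⟩ := com_affine hCOM s e k hs hk
  refine ⟨C, ?_⟩
  intro F _ _ W H hW hH n b A hA c
  have hwt : ∀ i, 1 ≤ wD s e k (s ^ 2 + s + 2) i := by
    intro i
    unfold wD
    split_ifs
    · omega
    · exact le_rfl
  have hWf : Module.Finite F W := by rw [hW]; exact PW_finite _ hwt _
  have hHf : Module.Finite F H := by rw [hH]; exact PW_finite _ hwt _
  have hWH : W ≤ H := by
    rw [hW, hH]
    refine PW_mono ?_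
    nlinarith [Nat.zero_le (s ^ 2 + s)]
  have h1W : (1 : MvPolynomial (Fin (s + e + k)) F) ∈ W := by
    rw [hW]
    exact one_mem_PW _ _
  have hvW := van_finite W A
  have hvH := van_finite H A
  have fW := finite_sub W
  have fH := finite_sub H
  have fvW := finite_sub (van W A)
  have fvH := finite_sub (van H A)
  have key := hC F W H hW hH A hA
  set T := 2 ^ (s + e) * (s ^ 2 + s + 2) ^ (2 * k) with hT
  set B : Fin n → MvPolynomial (Fin (s + e + k)) F :=
    fun l => (b l : MvPolynomial (Fin (s + e + k)) F) with hB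
  let Z := (Fin e → van W A) × (Fin k → van H A)
  let M := Fin n → Fin n → F
  let P : Z → M → Prop := fun x a => T < Set.ncard {y : Fin (s + e + k) → F |
          (∀ i, eval y (x.1 i : MvPolynomial (Fin (s + e + k)) F) = 0) ∧
          (∀ i, eval y (x.2 i : MvPolynomial (Fin (s + e + k)) F) = 0) ∧
          (∀ i, symb B a (A i) y = c i)}
  have e1 : {z : ((Fin e → W) × (Fin k → H)) × M // Set.range A ⊆ VV z.1 ∧
        T < Set.ncard {y : Fin (s + e + k) → F |
          y ∈ VV z.1 ∧
          ∀ i, symb B z.2 (A i) y = c i}} ≃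
      {z : Z × M // P z.1 z.2} :=
    { toFun := fun z => ⟨((fun a => ⟨z.1.1.1 a, mem_van.2 ⟨(z.1.1.1 a).2, fun i =>
          (z.2.1 ⟨i, rfl⟩).1 a⟩⟩, fun a => ⟨z.1.1.2 a, mem_van.2 ⟨(z.1.1.2 a).2, fun i =>
          (z.2.1 ⟨i, rfl⟩).2 a⟩⟩), z.1.2), by
            have h2 := z.2.2
            simp only [VV, Set.mem_ofPred_eq, and_assoc] at h2
            exact h2⟩
      invFun := fun z => ⟨((fun a => ⟨z.1.1.1 a, (mem_van.1 (z.1.1.1 a).2).1⟩,
          fun a => ⟨z.1.1.2 a, (mem_van.1 (z.1.1.2 a).2).1⟩), z.1.2), by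
            rintro _ ⟨i, rfl⟩
            exact ⟨fun a => (mem_van.1 (z.1.1.1 a).2).2 i, fun a => (mem_van.1 (z.1.1.2 a).2).2 i⟩,
          by
            have h2 : T < Set.ncard {y : Fin (s + e + k) → F |
                (∀ i, eval y (z.1.1.1 i : MvPolynomial (Fin (s + e + k)) F) = 0) ∧
                (∀ i, eval y (z.1.1.2 i : MvPolynomial (Fin (s + e + k)) F) = 0) ∧
                (∀ i, symb B z.1.2 (A i) y = c i)} := z.2
            simp only [VV, Set.mem_ofPred_eq, and_assoc]
            exact h2⟩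
      left_inv := fun z => rfl
      right_inv := fun z => rfl }
  rw [Nat.card_congr e1]
  have hform := fun w : Fin s → van W A => exists_form b hA w
  choose aw haw using hform
  -- translate
  have e2 : {z : Z × M // P z.1 z.2} × (Fin s → van W A) ≃
      (a : M) × {x : Z × (Fin s → van W A) // P x.1 (a + aw x.2)} :=
    { toFun := fun z => ⟨z.1.1.2 - aw z.2, ⟨(z.1.1.1, z.2), by
        show P z.1.1.1 (z.1.1.2 - aw z.2 + aw z.2)
        rw [sub_add_cancel]
        exact z.1.2⟩⟩
      invFun := fun z => (⟨(z.2.1.1, z.1 + aw z.2.1.2), z.2.2⟩, z.2.1.2)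
      left_inv := fun z => by
        apply Prod.ext
        · apply Subtype.ext
          apply Prod.ext
          · rfl
          · exact sub_add_cancel _ _
        · rfl
      right_inv := fun z => by
        obtain ⟨a, ⟨x, hx⟩⟩ := z
        have h1 : a + aw x.2 - aw x.2 = a := add_sub_cancel_right _ _
        refine Sigma.ext h1 ?_
        refine (Subtype.heq_iff_coe_eq ?_).2 rfl
        intro y
        show P y.1 ((a + aw x.2 - aw x.2) + aw y.2) ↔ P y.1 (a + aw y.2)
        rw [h1] }
  have hkey : ∀ a : M, Fintype.card F ^ (s ^ 2 + 2) *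
      Nat.card {x : Z × (Fin s → van W A) // P x.1 (a + aw x.2)} ≤
      C * (Nat.card Z * Nat.card (Fin s → van W A)) := by
    intro a
    obtain ⟨g, hg⟩ := exists_gmS b A a
    have h2 := key (fun i => g i - c i • ⟨1, h1W⟩)
    refine le_trans (le_of_eq ?_) h2
    congr 1
    refine Nat.card_congr (Equiv.subtypeEquivRight fun x => ?_)
    show (T < Set.ncard {y : Fin (s + e + k) → F |
          (∀ i, eval y (x.1.1 i : MvPolynomial (Fin (s + e + k)) F) = 0) ∧
          (∀ i, eval y (x.1.2 i : MvPolynomial (Fin (s + e + k)) F) = 0) ∧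
          (∀ i, symb B (a + aw x.2) (A i) y = c i)}) ↔ _
    have h3 : ∀ (y : Fin (s + e + k) → F) (i : Fin s), symb B (a + aw x.2) (A i) y = c i ↔
        eval y (((g i - c i • ⟨1, h1W⟩ : W) : MvPolynomial (Fin (s + e + k)) F) + x.2 i) = 0 := by
      intro y i
      rw [symb_add, haw, ← hg, Submodule.coe_sub, Submodule.coe_smul, map_add, map_sub, smul_eval,
        map_one, mul_one, ← sub_eq_zero]
      constructor
      · intro h
        rw [← h]
        ring
      · intro h
        rw [← h]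
        ring
    simp only [h3]
  have hD : 0 < Nat.card (Fin s → van W A) := Nat.card_pos
  have h5 : Fintype.card F ^ (s ^ 2 + 2) * Nat.card {z : Z × M // P z.1 z.2} ≤
      C * (Nat.card Z * Nat.card M) := by
    refine Nat.le_of_mul_le_mul_right ?_ hD
    have h6 : Nat.card {z : Z × M // P z.1 z.2} * Nat.card (Fin s → van W A) =
        ∑ a : M, Nat.card {x : Z × (Fin s → van W A) // P x.1 (a + aw x.2)} := by
      rw [← Nat.card_prod, Nat.card_congr e2, Nat.card_sigma]
    rw [mul_assoc, h6, Finset.mul_sum]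
    refine (Finset.sum_le_sum fun a _ => hkey a).trans (le_of_eq ?_)
    rw [Finset.sum_const, Finset.card_univ, smul_eq_mul, ← Nat.card_eq_fintype_card (α := M)]
    ring
  have h1 := card_van hA
  have h2 := card_van (hA.mono hWH)
  rw [Fintype.card_fin] at h1 h2
  have hcZ : Nat.card Z = Nat.card (van W A) ^ e * Nat.card (van H A) ^ k := by
    rw [Nat.card_prod, Nat.card_fun, Nat.card_fun, Nat.card_eq_fintype_card (α := Fin e),
      Fintype.card_fin, Nat.card_eq_fintype_card (α := Fin k), Fintype.card_fin]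
  have h4 : Nat.card ((Fin e → W) × (Fin k → H)) = Nat.card W ^ e * Nat.card H ^ k := by
    rw [Nat.card_prod, Nat.card_fun, Nat.card_fun, Nat.card_eq_fintype_card (α := Fin e),
      Fintype.card_fin, Nat.card_eq_fintype_card (α := Fin k), Fintype.card_fin]
  rw [h4]
  rw [hcZ] at h5
  calc Fintype.card F ^ (s ^ 2 + 2 + s * (e + k)) *
        Nat.card {z : Z × M // P z.1 z.2}
      = Fintype.card F ^ (s * (e + k)) * (Fintype.card F ^ (s ^ 2 + 2) *
        Nat.card {z : Z × M // P z.1 z.2}) := by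
        rw [pow_add]; ring
    _ ≤ Fintype.card F ^ (s * (e + k)) * (C * (Nat.card (van W A) ^ e *
        Nat.card (van H A) ^ k * Nat.card M)) := by
        gcongr
    _ = C * ((Nat.card (van W A) * Fintype.card F ^ s) ^ e *
        (Nat.card (van H A) * Fintype.card F ^ s) ^ k * Nat.card M) := by
        rw [mul_add, pow_add, pow_mul, pow_mul, mul_pow, mul_pow]; ring
    _ = C * (Nat.card W ^ e * Nat.card H ^ k * Nat.card (Fin n → Fin n → F)) := by
        rw [h1, h2]

/-- the bad event for level sets of symmetric forms -/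
def BadY {F : Type} [Field F] {N e k s n : ℕ} (T : ℕ) (L : Finset F)
    {W H : Submodule F (MvPolynomial (Fin N) F)} (b : Module.Basis (Fin n) F W)
    (z : (Fin e → W) × (Fin k → H)) (a : Fin n → Fin n → F) : Prop :=
  ∃ A : Fin s → Fin N → F, Ind W A ∧ Set.range A ⊆ VV z ∧
    L.card ^ s * T < Set.ncard {y : Fin N → F | y ∈ VV z ∧
      ∀ i, symb (fun l => (b l : MvPolynomial (Fin N) F)) a (A i) y ∈ L}

theorem bad_cardY (hCOM : S_COM) (s e k : ℕ) (hs : 1 ≤ s)
    (hk : 2 * (s ^ 2 + 2 + k + k * s) ≤ k * (k + 3) * (k + 2)) (h : ℕ) :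
    ∃ C : ℕ, ∀ (F : Type) [Field F] [Fintype F]
    (W H : Submodule F (MvPolynomial (Fin (s + e + k)) F)),
    W = PW F (wD s e k (s ^ 2 + s + 2)) (2 * (s ^ 2 + s + 2)) →
    H = PW F (wD s e k (s ^ 2 + s + 2)) ((s ^ 2 + s + 2) ^ 2) →
    ∀ (n : ℕ) (b : Module.Basis (Fin n) F W) (L : Finset F), L.card = h →
    Fintype.card F ^ 2 * Nat.card
      {z : ((Fin e → W) × (Fin k → H)) × (Fin n → Fin n → F) //
        BadY (s := s) (2 ^ (s + e) * (s ^ 2 + s + 2) ^ (2 * k)) L b z.1 z.2} ≤
      C * (Nat.card ((Fin e → W) × (Fin k → H)) * Nat.card (Fin n → Fin n → F)) := by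
  classical
  obtain ⟨C, hC⟩ := badS hCOM s e k hs hk
  refine ⟨h ^ s * C, ?_⟩
  intro F _ _ W H hW hH n b L hL
  have hwt : ∀ i, 1 ≤ wD s e k (s ^ 2 + s + 2) i := by
    intro i
    unfold wD
    split_ifs
    · omega
    · exact le_rfl
  have hWf : Module.Finite F W := by rw [hW]; exact PW_finite _ hwt _
  have hHf : Module.Finite F H := by rw [hH]; exact PW_finite _ hwt _
  have fW := finite_sub W
  have fH := finite_sub H
  have key := hC F W H hW hH n b
  set T := 2 ^ (s + e) * (s ^ 2 + s + 2) ^ (2 * k) with hT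
  let Ω := ((Fin e → W) × (Fin k → H)) × (Fin n → Fin n → F)
  let P1 : ((Fin s → Fin (s + e + k) → F) × (Fin s → F)) → Ω → Prop := fun A z =>
    Set.range A.1 ⊆ VV z.1 ∧
        T < Set.ncard {y : Fin (s + e + k) → F | y ∈ VV z.1 ∧
          ∀ i, symb (fun l => (b l : MvPolynomial (Fin (s + e + k)) F)) z.2 (A.1 i) y = A.2 i}
  have h1 : ∀ A, Ind W A.1 → Fintype.card F ^ (s ^ 2 + 2 + s * (e + k)) *
      Nat.card {z : Ω // P1 A z} ≤
      C * (Nat.card ((Fin e → W) × (Fin k → H)) * Nat.card (Fin n → Fin n → F)) :=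
    fun A hA => key A.1 hA A.2
  set I : Finset ((Fin s → Fin (s + e + k) → F) × (Fin s → F)) :=
    Finset.univ.filter (fun A => Ind W A.1) ∩
      (Finset.univ ×ˢ Fintype.piFinset (fun _ : Fin s => L)) with hI
  have h5 : Nat.card {z : Ω // BadY (s := s) T L b z.1 z.2} ≤
      ∑ A ∈ I, Nat.card {z : Ω // P1 A z} := by
    have hsub : {z : Ω | BadY (s := s) T L b z.1 z.2} ⊆
        ⋃ A ∈ I, {z : Ω | P1 A z} := by
      rintro z ⟨A, hA, h3, h4⟩
      rw [Set.mem_iUnion₂]
      obtain ⟨c, hc, hc'⟩ := exists_level L T (VV z.1)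
        (fun i y => symb (fun l => (b l : MvPolynomial (Fin (s + e + k)) F)) z.2 (A i) y) h4
      refine ⟨(A, c), ?_, h3, hc'⟩
      rw [hI, Finset.mem_inter, Finset.mem_filter, Finset.mem_product]
      exact ⟨⟨Finset.mem_univ _, hA⟩, Finset.mem_univ _, hc⟩
    have h6 := Set.ncard_le_ncard hsub (Set.toFinite _)
    have h7 : Nat.card {z : Ω // BadY (s := s) T L b z.1 z.2} =
        Set.ncard {z : Ω | BadY (s := s) T L b z.1 z.2} := rfl
    rw [h7]
    refine h6.trans ?_
    exact Finset.set_ncard_biUnion_le _ _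
  have hcardA : I.card ≤ Fintype.card F ^ (s ^ 2 + s * (e + k)) * h ^ s := by
    refine (Finset.card_le_card Finset.inter_subset_right).trans ?_
    rw [Finset.card_product, Finset.card_univ, Fintype.card_piFinset_const, hL,
      Fintype.card_fun, Fintype.card_fun, Fintype.card_fin, Fintype.card_fin, ← pow_mul]
    refine le_of_eq ?_
    congr 2
    ring
  have hq : 0 < Fintype.card F := Fintype.card_pos
  have hpos : 0 < Fintype.card F ^ (s ^ 2 + s * (e + k)) := Nat.pow_pos hq
  refine Nat.le_of_mul_le_mul_left ?_ hpos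
  calc Fintype.card F ^ (s ^ 2 + s * (e + k)) * (Fintype.card F ^ 2 *
        Nat.card {z : Ω // BadY (s := s) T L b z.1 z.2})
      = Fintype.card F ^ (s ^ 2 + 2 + s * (e + k)) *
        Nat.card {z : Ω // BadY (s := s) T L b z.1 z.2} := by
        rw [← mul_assoc, ← pow_add]
        congr 2
        ring
    _ ≤ Fintype.card F ^ (s ^ 2 + 2 + s * (e + k)) *
        ∑ A ∈ I, Nat.card {z : Ω // P1 A z} :=
        Nat.mul_le_mul_left _ h5
    _ = ∑ A ∈ I, Fintype.card F ^ (s ^ 2 + 2 + s * (e + k)) * Nat.card {z : Ω // P1 A z} :=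
        Finset.mul_sum _ _ _
    _ ≤ ∑ A ∈ I, C *
        (Nat.card ((Fin e → W) × (Fin k → H)) * Nat.card (Fin n → Fin n → F)) := by
        refine Finset.sum_le_sum fun A hA => ?_
        rw [hI, Finset.mem_inter, Finset.mem_filter] at hA
        exact h1 A hA.1.2
    _ = I.card * (C *
        (Nat.card ((Fin e → W) × (Fin k → H)) * Nat.card (Fin n → Fin n → F))) := by
        rw [Finset.sum_const, smul_eq_mul]
    _ ≤ (Fintype.card F ^ (s ^ 2 + s * (e + k)) * h ^ s) * (C *
        (Nat.card ((Fin e → W) × (Fin k → H)) * Nat.card (Fin n → Fin n → F))) :=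
        Nat.mul_le_mul_right _ hcardA
    _ = _ := by ring

end Pool.Agent.J4H55.ZC
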