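import Pool.Agent.J4H55.ZC.FMe
import Pool.Agent.J4H55.ZC.Sym2
import Pool.Agent.N353.BK.FIN
import Pool.Agent.N615.BK.CLEAN

/-!
The graphs defined by level sets of random symmetric polynomials: primes.
-/

set_option autoImplicit false

open MvPolynomial

namespace Pool.Agent.J4H55.ZC

open Pool.Agent.N684.BK

theorem card_lvl {F : Type} [Field F] [Fintype F] {M : Type} [AddCommGroup M] [Module F M]
    [Finite M] (φ : M →ₗ[F] F) (hφ : Function.Surjective φ) (L : Finset F) :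
    Nat.card {a : M // φ a ∈ L} * Fintype.card F = L.card * Nat.card M := by
  have h1 := card_fib (Z := Unit) φ hφ (fun _ x => x ∈ L)
  have e1 : {a : M // φ a ∈ L} ≃ {z : Unit × M // φ z.2 ∈ L} :=
    { toFun := fun a => ⟨((), a.1), a.2⟩
      invFun := fun z => ⟨z.1.2, z.2⟩
      left_inv := fun z => rfl
      right_inv := fun z => rfl }
  have e2 : L ≃ {z : Unit × F // z.2 ∈ L} :=
    { toFun := fun a => ⟨((), a.1), a.2⟩
      invFun := fun z => ⟨z.1.2, z.2⟩
      left_inv := fun z => rfl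
      right_inv := fun z => rfl }
  rw [Nat.card_congr e1, ← Nat.card_eq_fintype_card, h1, ← Nat.card_congr e2,
    Nat.card_eq_fintype_card, Fintype.card_coe]

/-- from a symmetric relation without large bicliques to Turán numbers -/
theorem kst_symm (s t n : ℕ) (Pt : Type) (V : Set Pt) (R : Pt → Pt → Prop) (hs : 1 ≤ s)
    (ht : 1 ≤ t) (hV : V.Finite) (hn : V.ncard ≤ n) (hR : ∀ x y, R x y → R y x)
    (h : ∀ A : Fin s → Pt, Function.Injective A → Set.range A ⊆ V →
      Set.ncard {y | y ∈ V ∧ ∀ i, R (A i) y} < t) :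
    Set.ncard {z : Pt × Pt | z.1 ∈ V ∧ z.2 ∈ V ∧ R z.1 z.2} ≤
      2 * SimpleGraph.extremalNumber n (completeBipartiteGraph (Fin s) (Fin t)) + V.ncard := by
  classical
  haveI : Fintype V := hV.fintype
  have hcV : Fintype.card V = V.ncard := by
    rw [← Nat.card_coe_set_eq, Nat.card_eq_fintype_card]
  let G : SimpleGraph V :=
    { Adj := fun x y => x ≠ y ∧ R x y
      symm := ⟨fun x y hxy => ⟨hxy.1.symm, hR _ _ hxy.2⟩⟩
      loopless := ⟨fun x hx => hx.1 rfl⟩ }
  have hfree : (completeBipartiteGraph (Fin s) (Fin t)).Free G := by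
    rintro ⟨φ⟩
    have hadj : ∀ (i : Fin s) (j : Fin t), G.Adj (φ (Sum.inl i)) (φ (Sum.inr j)) := by
      intro i j
      apply φ.toHom.map_adj
      simp [completeBipartiteGraph]
    have hinj : Function.Injective φ := φ.injective
    have hAi : Function.Injective (fun i : Fin s => ((φ (Sum.inl i) : V) : Pt)) := by
      intro i i' hii
      exact Sum.inl_injective (hinj (Subtype.ext hii))
    have hBi : Function.Injective (fun j : Fin t => ((φ (Sum.inr j) : V) : Pt)) := by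
      intro i i' hii
      exact Sum.inr_injective (hinj (Subtype.ext hii))
    have h1 := h _ hAi (by rintro _ ⟨i, rfl⟩; exact (φ (Sum.inl i)).2)
    have h2 := Pool.Agent.N615.BK.CLEAN.le_ncard (hV.subset fun y hy => hy.1)
      (fun j : Fin t => ((φ (Sum.inr j) : V) : Pt)) hBi
      (S := {y | y ∈ V ∧ ∀ i : Fin s, R ((φ (Sum.inl i) : V) : Pt) y})
      (fun j => ⟨(φ (Sum.inr j)).2, fun i => (hadj i j).2⟩)
    omega
  have h1 := SimpleGraph.card_edgeFinset_le_extremalNumber hfree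
  rw [hcV] at h1
  have h2 := h1.trans (Pool.Agent.N353.BK.FIN.ex_mono (s := s) (t := t) (by omega) (by omega) hn)
  have h3 : ∑ v, G.degree v = 2 * G.edgeFinset.card := G.sum_degrees_eq_twice_card_edges
  have h4 : Set.ncard {z : Pt × Pt | z.1 ∈ V ∧ z.2 ∈ V ∧ R z.1 z.2} ≤
      Fintype.card G.Dart + V.ncard := by
    have e1 : {z : Pt × Pt | z.1 ∈ V ∧ z.2 ∈ V ∧ R z.1 z.2} ⊆
        Set.range (fun d : G.Dart => (((d.toProd.1 : V) : Pt), ((d.toProd.2 : V) : Pt))) ∪
        Set.range (fun v : V => ((v : Pt), (v : Pt))) := by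
      rintro ⟨x, y⟩ ⟨hx, hy, hxy⟩
      by_cases hxy2 : x = y
      · subst hxy2
        exact Or.inr ⟨⟨x, hx⟩, rfl⟩
      · refine Or.inl ⟨⟨(⟨x, hx⟩, ⟨y, hy⟩), ?_⟩, rfl⟩
        exact ⟨fun hh => hxy2 (congrArg Subtype.val hh), hxy⟩
    refine (Set.ncard_le_ncard e1 ((Set.finite_range _).union (Set.finite_range _))).trans
      ((Set.ncard_union_le _ _).trans (add_le_add ?_ ?_))
    · refine (Set.ncard_le_ncard (t := Set.range (fun d : G.Dart =>
        (((d.toProd.1 : V) : Pt), ((d.toProd.2 : V) : Pt)))) le_rfl (Set.finite_range _)).trans ?_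
      rw [← Set.image_univ]
      refine (Set.ncard_image_le Set.finite_univ).trans ?_
      rw [Set.ncard_univ, Nat.card_eq_fintype_card]
    · rw [← Set.image_univ]
      refine (Set.ncard_image_le Set.finite_univ).trans ?_
      rw [Set.ncard_univ, Nat.card_eq_fintype_card, hcV]
  rw [G.dart_card_eq_twice_card_edges] at h4
  omega

/-- the Turán numbers for primes -/
def S_ALGY : Prop := ∀ (s e k t h : ℕ), 2 ≤ s → 5 * s ≤ 4 * e → 6 ≤ k →
  2 * (s ^ 2 + 2 + k + k * s) ≤ k * (k + 3) * (k + 2) → 1 ≤ h →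
  h ^ s * (2 ^ (s + e) * (s ^ 2 + s + 2) ^ (2 * k)) < t → ∀ ε : ℝ, 0 < ε → ε < 1 →
  ∃ p₀ : ℕ, ∀ p : ℕ, p₀ ≤ p → p.Prime → ∀ n : ℕ, (1 + ε) * (p : ℝ) ^ s ≤ n →
  (1 - ε) * h * (p : ℝ) ^ (2 * s - 1) ≤ 2 * (SimpleGraph.extremalNumber n
    (completeBipartiteGraph (Fin s) (Fin t)) : ℝ) + (1 + ε) * (p : ℝ) ^ s

theorem ALGY (hCOM : S_COM) (hCIRC : S_CIRC) (hCLEAN : S_CLEAN) :
    S_ALGY := by
  classical
  intro s e k t h hs he hk6 hk hh1 hT ε hε hε1
  obtain ⟨C₁, hC₁⟩ := bad_cardY hCOM s e k (by omega) hk h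
  have hcirc : ∀ j : Fin (s + 1), ∃ C : ℕ,
      ∀ (F : Type) [Field F] [Fintype F] (W : Submodule F (MvPolynomial (Fin (s + e + k)) F)),
      1 ∈ W → (∀ a, X a ∈ W) → (∀ a b, X a * X b ∈ W) →
      Nat.card {A : Fin (j : ℕ) → Fin (s + e + k) → F // Circ W A} * Fintype.card F ^ 2 ≤
        C * Fintype.card F ^ (((j : ℕ) - 1) * (e + k) + s) := fun j =>
    hCIRC s e k j hs he hk6 (by omega)
  choose C₂ hC₂ using hcirc
  obtain ⟨q₀, hq₀⟩ := FMe s (e + k) (max C₁ (∑ j, C₂ j)) h hs hh1 ε hε hε1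
  refine ⟨max q₀ (h + 3), ?_⟩
  intro p hp hpp nn hnn
  have hph : h + 3 ≤ p := le_trans (le_max_right _ _) hp
  have : Fact p.Prime := ⟨hpp⟩
  set T := 2 ^ (s + e) * (s ^ 2 + s + 2) ^ (2 * k) with hTdef
  let F := ZMod p
  have hcF : Fintype.card F = p := ZMod.card p
  have h2F : (2 : F) ≠ 0 := by
    intro h2
    have h3 : ((2 : ℕ) : ZMod p) = 0 := by exact_mod_cast h2
    rw [ZMod.natCast_eq_zero_iff] at h3
    have := Nat.le_of_dvd (by norm_num) h3
    omega
  obtain ⟨L, -, hL⟩ : ∃ L : Finset F, L ⊆ Finset.univ ∧ L.card = h :=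
    Finset.exists_subset_card_eq (by rw [Finset.card_univ, hcF]; omega)
  set D := s ^ 2 + s + 2 with hD
  let wt := wD s e k D
  have hwt : ∀ i, 1 ≤ wt i := by
    intro i
    show 1 ≤ wD s e k D i
    unfold wD
    split_ifs
    · omega
    · exact le_rfl
  have hwt2 : ∀ i, wt i ≤ D := by
    intro i
    show wD s e k D i ≤ D
    unfold wD
    split_ifs
    · exact le_rfl
    · omega
  let W := PW F wt (2 * D)
  let H := PW F wt (D ^ 2)
  have hWf : Module.Finite F W := PW_finite _ hwt _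
  have hHf : Module.Finite F H := PW_finite _ hwt _
  have fW : Finite W := finite_sub W
  have fH : Finite H := finite_sub H
  have hWH : W ≤ H := by
    refine PW_mono ?_
    rw [hD]
    nlinarith [Nat.zero_le (s ^ 2 + s)]
  have h1W : 1 ∈ W := one_mem_PW _ _
  have hXW : ∀ a, X a ∈ W := fun a => X_mem_PW _ _ a (by have := hwt2 a; omega)
  have hXXW : ∀ a b, X a * X b ∈ W := fun a b => XX_mem_PW _ _ a b (by
    have := hwt2 a
    have := hwt2 b
    omega)
  let n := Module.finrank F W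
  let b : Module.Basis (Fin n) F W := Module.finBasis F W
  let Pt := Fin (s + e + k) → F
  let Ω₁ := (Fin e → W) × (Fin k → H)
  let Ω₂ := Fin n → Fin n → F
  let Ci := (j : Fin (s + 1)) × {A : Fin (j : ℕ) → Fin (s + e + k) → F // Circ W A}
  have i1 : Fintype Ω₁ := Fintype.ofFinite Ω₁
  let i3 : Fintype Ci := inferInstanceAs (Fintype
    ((j : Fin (s + 1)) × {A : Fin (j : ℕ) → Fin (s + e + k) → F // Circ W A}))
  have key := hq₀ p (le_trans (le_max_left _ _) hp) Pt Ω₁ Ω₂ Ci (fun z => VV z)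
    (fun a x y => symb (fun l => (b l : MvPolynomial (Fin (s + e + k)) F)) a x y ∈ L)
    (fun c => Set.range c.2.1) (fun z a => BadY (s := s) T L b z a) ?_ ?_ ?_ ?_ ?_ ?_ ?_
  · obtain ⟨z, a, hnb, V₀, hV₀, hcl, hV₀c, hE⟩ := key
    have hTt : h ^ s * T < t := hT
    have hnc : V₀.ncard ≤ nn := by
      have h1 : ((V₀.ncard : ℕ) : ℝ) ≤ nn := hV₀c.trans hnn
      exact_mod_cast h1
    have h5 := kst_symm s t nn Pt V₀
      (fun x y => symb (fun l => (b l : MvPolynomial (Fin (s + e + k)) F)) a x y ∈ L)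
      (by omega) (by omega) (Set.toFinite _) hnc (fun x y hxy => by rwa [symb_symm]) (by
        intro A hAinj hAV
        have hInd : Ind W A := by
          refine hCLEAN F (s + e + k) s W V₀ ?_ A hAinj hAV
          intro j hj A' hA' hr
          exact hcl ⟨⟨j, by omega⟩, ⟨A', hA'⟩⟩ hr
        have hnb' : ¬ (L.card ^ s * T < Set.ncard {y : Fin (s + e + k) → F | y ∈ VV z ∧
            ∀ i, symb (fun l => (b l : MvPolynomial (Fin (s + e + k)) F)) a (A i) y ∈ L}) :=
          fun h => hnb ⟨A, hInd, hAV.trans hV₀, h⟩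
        push Not at hnb'
        rw [hL] at hnb'
        refine lt_of_le_of_lt (le_trans ?_ hnb') hTt
        refine Set.ncard_le_ncard ?_ (Set.toFinite _)
        rintro y ⟨h1, h2⟩
        exact ⟨hV₀ h1, h2⟩)
    have h6 : ((Set.ncard {z : Pt × Pt | z.1 ∈ V₀ ∧ z.2 ∈ V₀ ∧
        symb (fun l => (b l : MvPolynomial (Fin (s + e + k)) F)) a z.1 z.2 ∈ L} : ℕ) : ℝ) ≤
        ((2 * SimpleGraph.extremalNumber nn (completeBipartiteGraph (Fin s) (Fin t)) +
          V₀.ncard : ℕ) : ℝ) := Nat.cast_le.2 h5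
    push_cast at h6
    have h7 : (V₀.ncard : ℝ) ≤ (1 + ε) * (p : ℝ) ^ s := hV₀c
    exact (hE.trans h6).trans (by linarith)
  · show Fintype.card (Fin (s + e + k) → F) = _
    rw [Fintype.card_fun, Fintype.card_fin, hcF]
    congr 1
    ring
  · intro x
    have h1 := card_pair (e := e) (k := k) (ind_one (ι := Unit) h1W (fun _ => x)) hWH
    rw [Fintype.card_unit, one_mul, hcF, Nat.card_eq_fintype_card (α := Ω₁)] at h1
    rw [← h1]
    congr 1
    refine Nat.card_congr (Equiv.subtypeEquivRight fun z => ?_)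
    exact ⟨fun h _ => h, fun h => h ()⟩
  · intro x y hxy
    have h1 := card_pair (e := e) (k := k) (ind_two h1W hXW hxy) hWH
    rw [Fintype.card_fin, hcF, Nat.card_eq_fintype_card (α := Ω₁)] at h1
    rw [← h1]
    congr 1
    refine Nat.card_congr (Equiv.subtypeEquivRight fun z => ?_)
    constructor
    · rintro ⟨h2, h3⟩ i
      fin_cases i
      · exact h2
      · exact h3
    · intro h
      exact ⟨h 0, h 1⟩
  · intro x y
    have h1 := card_lvl (symL (fun l => (b l : MvPolynomial (Fin (s + e + k)) F)) x y)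
      (symL_surj h1W b h2F x y) L
    rw [hcF, hL, Nat.card_eq_fintype_card (α := Ω₂)] at h1
    exact h1
  · rintro ⟨j, A, hA⟩
    rcases Nat.eq_zero_or_pos (j : ℕ) with hj | hj
    · exfalso
      apply hA.2.1
      intro v
      refine ⟨0, ?_⟩
      funext i
      exact absurd i.2 (by omega)
    · exact ⟨A ⟨0, hj⟩, ⟨⟨0, hj⟩, rfl⟩⟩
  · have hq : 0 < Fintype.card F := Fintype.card_pos
    have h2 : ∀ j : Fin (s + 1), p ^ 2 * ∑ A : {A : Fin (j : ℕ) → Fin (s + e + k) → F // Circ W A},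
        Nat.card {z : Ω₁ // Set.range A.1 ⊆ VV z} ≤ C₂ j * p ^ s * Fintype.card Ω₁ := by
      intro j
      have h3 := hC₂ j F W h1W hXW hXXW
      have h4 : Fintype.card F ^ (((j : ℕ) - 1) * (e + k)) *
          ∑ A : {A : Fin (j : ℕ) → Fin (s + e + k) → F // Circ W A},
          Nat.card {z : Ω₁ // Set.range A.1 ⊆ VV z} ≤
          Nat.card {A : Fin (j : ℕ) → Fin (s + e + k) → F // Circ W A} * Nat.card Ω₁ := by
        rw [Finset.mul_sum]
        refine (Finset.sum_le_sum fun A _ => card_circ (e := e) (k := k) hWH A.2).trans ?_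
        rw [Finset.sum_const, Finset.card_univ, smul_eq_mul, Nat.card_eq_fintype_card (α :=
          {A : Fin (j : ℕ) → Fin (s + e + k) → F // Circ W A})]
      have hpos : 0 < Fintype.card F ^ (((j : ℕ) - 1) * (e + k)) := Nat.pow_pos hq
      refine Nat.le_of_mul_le_mul_left ?_ hpos
      rw [hcF] at h3 h4 ⊢
      rw [Nat.card_eq_fintype_card (α := Ω₁)] at h4
      calc _ = p ^ 2 * (p ^ (((j : ℕ) - 1) * (e + k)) *
            ∑ A : {A : Fin (j : ℕ) → Fin (s + e + k) → F // Circ W A},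
            Nat.card {z : Ω₁ // Set.range A.1 ⊆ VV z}) := by ring
        _ ≤ p ^ 2 * (Nat.card {A : Fin (j : ℕ) → Fin (s + e + k) → F // Circ W A} *
            Fintype.card Ω₁) := Nat.mul_le_mul_left _ h4
        _ = (Nat.card {A : Fin (j : ℕ) → Fin (s + e + k) → F // Circ W A} * p ^ 2) *
            Fintype.card Ω₁ := by ring
        _ ≤ (C₂ j * p ^ (((j : ℕ) - 1) * (e + k) + s)) * Fintype.card Ω₁ :=
            Nat.mul_le_mul_right _ h3
        _ = _ := by rw [pow_add]; ring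
    have h5 : ∑ c : Ci, Nat.card {z : Ω₁ // Set.range c.2.1 ⊆ VV z} =
        ∑ j : Fin (s + 1), ∑ A : {A : Fin (j : ℕ) → Fin (s + e + k) → F // Circ W A},
          Nat.card {z : Ω₁ // Set.range A.1 ⊆ VV z} := by
      exact Fintype.sum_sigma (ι := Fin (s + 1)) (α := fun j : Fin (s + 1) =>
        {A : Fin (j : ℕ) → Fin (s + e + k) → F // Circ W A})
        (fun c => Nat.card {z : Ω₁ // Set.range c.2.1 ⊆ VV z})
    rw [h5, Finset.mul_sum]
    calc _ ≤ ∑ j : Fin (s + 1), C₂ j * p ^ s * Fintype.card Ω₁ :=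
          Finset.sum_le_sum fun j _ => h2 j
      _ = (∑ j : Fin (s + 1), C₂ j) * p ^ s * Fintype.card Ω₁ := by
          rw [Finset.sum_mul, Finset.sum_mul]
      _ ≤ _ := by
          gcongr
          exact le_max_right _ _
  · have h1 := hC₁ F W H rfl rfl n b L hL
    rw [hcF, Nat.card_eq_fintype_card (α := (Fin e → W) × (Fin k → H)),
      Nat.card_eq_fintype_card (α := Fin n → Fin n → F), ← mul_assoc] at h1
    refine h1.trans ?_
    gcongr
    exact le_max_left _ _

end Pool.Agent.J4H55.ZC
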